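import Mathlib

/-! # An element coprime to the characteristic polynomial acts injectively

`R` a domain, `P` an `n × n` matrix over `R`, `X` acts on row vectors `v : Fin n → R` by `v ↦ v ᵥ* P`, so `u : R[X]` acts by `v ↦ v ᵥ* (aeval P u)`.
PROOF. Let `v ᵥ* (aeval P u) = 0`. In `R[X]`: the matrix `C = charmatrix P = X - P`, `adjugate C * C = charpoly P • 1`. First: the row `u • C v` (`v` mapped to `R[X]` by `C`) is of the form
`w ᵥ* charmatrix P` with `w : Fin n → R[X]`: for every `u`, `u • (C ∘ v) - C ∘ (v ᵥ* aeval P u) = w_u ᵥ* charmatrix P` for some `w_u` (induction on `u`: additive in `u`; for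
`u = X^{k+1}` (times a constant): `X^{k+1} v = X (w_k ᵥ* (X - P) + C (v P^k)) = ...` and `X • C (v P^k) - C (v P^{k+1}) = C (v P^k) ᵥ* (X - P)`). So with the hypothesis
`u • (C ∘ v) = w ᵥ* charmatrix P`. Multiply on the right by `adjugate (charmatrix P)`: `u • ((C ∘ v) ᵥ* adjugate) = charpoly P • w`. So `u ∣ charpoly P * w i` for every `i`;
`IsRelPrime u (charpoly P)` and `DecompositionMonoid` give `u ∣ w i` (`IsRelPrime.dvd_of_dvd_mul_left`), `w = u • w'`, and `u ≠ 0` (hypothesis) cancels:
`C ∘ v = w' ᵥ* charmatrix P`. Hence `w' = 0`: otherwise let `d` be the maximal degree of the `w' i`; the coefficients of `X^{d+1}` in `w' ᵥ* (X - P)` are the coefficients of `X^d` in `w'`,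
not all zero, but `C ∘ v` has degree `0`. So `v = 0`. -/

set_option autoImplicit false

namespace Pool.Agent.H8.AP

open Polynomial

private theorem adj_charmatrix {R : Type} [CommRing R] {n : ℕ} (P : Matrix (Fin n) (Fin n) R)
    (z : Fin n → R[X]) (j : Fin n) :
    Matrix.vecMul z P.charmatrix j = z j * X - ∑ i, z i * C (P i j) := by
  simp only [Matrix.vecMul, dotProduct, Matrix.charmatrix_apply, mul_sub, Finset.sum_sub_distrib,
    Matrix.diagonal_apply, mul_ite, mul_zero, Finset.sum_ite_eq', Finset.mem_univ, if_true]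

private theorem adj_step {R : Type} [CommRing R] {n : ℕ} (P : Matrix (Fin n) (Fin n) R)
    (v : Fin n → R) (u : R[X]) : ∃ w : Fin n → R[X], ∀ j,
      u * C (v j) - C (Matrix.vecMul v (aeval P u) j) = Matrix.vecMul w P.charmatrix j := by
  induction u using Polynomial.induction_on with
  | C a =>
    refine ⟨0, fun j => ?_⟩
    rw [Matrix.zero_vecMul, aeval_C, Algebra.algebraMap_eq_smul_one, Matrix.vecMul_smul,
      Matrix.vecMul_one, Pi.smul_apply, smul_eq_mul, ← C_mul, sub_self, Pi.zero_apply]
  | add p q hp hq =>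
    obtain ⟨w1, h1⟩ := hp
    obtain ⟨w2, h2⟩ := hq
    refine ⟨w1 + w2, fun j => ?_⟩
    rw [Matrix.add_vecMul, Pi.add_apply, ← h1 j, ← h2 j, map_add, Matrix.vecMul_add, Pi.add_apply,
      C_add]
    ring
  | monomial k a hk =>
    obtain ⟨w, hw⟩ := hk
    refine ⟨fun i => X * w i + C (Matrix.vecMul v (aeval P (C a * X ^ k)) i), fun j => ?_⟩
    have h1 := hw j
    have h2 : aeval P (C a * X ^ (k + 1)) = aeval P (C a * X ^ k) * P := by
      rw [pow_succ, ← mul_assoc, map_mul, aeval_X]
    have h3 : Matrix.vecMul v (aeval P (C a * X ^ (k + 1))) j =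
        ∑ i, Matrix.vecMul v (aeval P (C a * X ^ k)) i * P i j := by
      rw [h2, ← Matrix.vecMul_vecMul]
      rfl
    rw [h3, adj_charmatrix]
    rw [adj_charmatrix] at h1
    rw [map_sum]
    simp only [C_mul, add_mul, Finset.sum_add_distrib]
    have h4 : ∑ i, X * w i * C (P i j) = X * ∑ i, w i * C (P i j) := by
      rw [Finset.mul_sum]
      exact Finset.sum_congr rfl fun i _ => by ring
    rw [h4, pow_succ]
    linear_combination X * h1

private theorem adj_zero {R : Type} [CommRing R] {n : ℕ} (P : Matrix (Fin n) (Fin n) R)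
    (v : Fin n → R) (w : Fin n → R[X]) (h : ∀ j, C (v j) = Matrix.vecMul w P.charmatrix j) (N : ℕ) :
    (∀ j m, N ≤ m → (w j).coeff m = 0) → w = 0 := by
  induction N with
  | zero =>
    intro h0
    funext j
    ext m
    rw [h0 j m (Nat.zero_le m), Pi.zero_apply, coeff_zero]
  | succ N ih =>
    intro h0
    apply ih
    intro j m hm
    rcases Nat.eq_or_lt_of_le hm with he | hl
    · subst he
      have h1 := congrArg (fun q => coeff q (N + 1)) (h j)
      simp only [adj_charmatrix, coeff_C_succ, coeff_sub, coeff_mul_X, finsetSum_coeff,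
        coeff_mul_C] at h1
      have h2 : ∑ i, (w i).coeff (N + 1) * P i j = 0 :=
        Finset.sum_eq_zero fun i _ => by rw [h0 i (N + 1) le_rfl, zero_mul]
      rw [h2, sub_zero] at h1
      exact h1.symm
    · exact h0 j m hl

theorem adj_inj {R : Type} [CommRing R] [IsDomain R] [DecompositionMonoid R[X]] {n : ℕ}
    (P : Matrix (Fin n) (Fin n) R) (u : R[X]) (hu : u ≠ 0) (hr : IsRelPrime u P.charpoly)
    (v : Fin n → R) (hv : Matrix.vecMul v (aeval P u) = 0) : v = 0 := by
  obtain ⟨w, hw⟩ := adj_step P v u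
  have h1 : (fun j => u * C (v j)) = Matrix.vecMul w P.charmatrix := by
    funext j
    rw [← hw j, hv, Pi.zero_apply, C_0, sub_zero]
  have h2 : ∀ j, u * Matrix.vecMul (fun i => C (v i)) P.charmatrix.adjugate j =
      P.charpoly * w j := by
    intro j
    have h3 := congrArg (fun z => Matrix.vecMul z P.charmatrix.adjugate j) h1
    simp only [Matrix.vecMul_vecMul, Matrix.mul_adjugate] at h3
    rw [Matrix.vecMul_smul, Matrix.vecMul_one, Pi.smul_apply, smul_eq_mul] at h3
    rw [Matrix.charpoly, ← h3]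
    simp only [Matrix.vecMul, dotProduct, Finset.mul_sum, mul_assoc]
  have h4 : ∀ j, u ∣ w j := fun j =>
    hr.dvd_of_dvd_mul_left ⟨_, (h2 j).symm⟩
  choose w' hw' using h4
  have h5 : ∀ j, C (v j) = Matrix.vecMul w' P.charmatrix j := by
    intro j
    apply mul_left_cancel₀ hu
    have h6 := congrFun h1 j
    rw [h6, adj_charmatrix, adj_charmatrix, mul_sub, Finset.mul_sum, hw' j]
    congr 1
    · ring
    · exact Finset.sum_congr rfl fun i _ => by rw [hw' i]; ring
  have h7 : w' = 0 := by
    refine adj_zero P v w' h5 ((Finset.univ.sup fun j => (w' j).natDegree) + 1) fun j m hm => ?_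
    apply coeff_eq_zero_of_natDegree_lt
    have : (w' j).natDegree ≤ Finset.univ.sup fun j => (w' j).natDegree :=
      Finset.le_sup (f := fun j => (w' j).natDegree) (Finset.mem_univ j)
    omega
  funext j
  have h8 := h5 j
  rw [h7, Matrix.zero_vecMul, Pi.zero_apply, C_eq_zero] at h8
  rw [h8, Pi.zero_apply]

end Pool.Agent.H8.AP
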