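import Pool.Agent.H8.AP.Defs

/-! # Derivations with values in a module of the mapping torus -/

set_option autoImplicit false

namespace Pool.Agent.H8.AP

section big

variable {n : ℕ} {φ : MulAut (Fr n)} {M : Type} [AddCommGroup M] [Module ℚ M] (A : GMod φ M)

/-- The operator of a generator on `(Fin n → M) × M`. -/
private def big_gen (i : Fin n) : (Module.End ℚ ((Fin n → M) × M))ˣ where
  val := (LinearMap.fst ℚ (Fin n → M) M).prod
    (A.ρ (FreeGroup.of i) ∘ₗ LinearMap.snd ℚ (Fin n → M) M +
      (LinearMap.proj i : (Fin n → M) →ₗ[ℚ] M) ∘ₗ LinearMap.fst ℚ (Fin n → M) M)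
  inv := (LinearMap.fst ℚ (Fin n → M) M).prod
    (A.ρ (FreeGroup.of i)⁻¹ ∘ₗ (LinearMap.snd ℚ (Fin n → M) M -
      (LinearMap.proj i : (Fin n → M) →ₗ[ℚ] M) ∘ₗ LinearMap.fst ℚ (Fin n → M) M))
  val_inv := by
    refine LinearMap.ext fun w => ?_
    obtain ⟨v, u⟩ := w
    have h1 : A.ρ (FreeGroup.of i) (A.ρ (FreeGroup.of i)⁻¹ (u - v i)) = u - v i := by
      rw [← Module.End.mul_apply, ← map_mul, mul_inv_cancel, map_one, Module.End.one_apply]
    refine Prod.ext rfl ?_
    change A.ρ (FreeGroup.of i) (A.ρ (FreeGroup.of i)⁻¹ (u - v i)) + v i = u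
    rw [h1, sub_add_cancel]
  inv_val := by
    refine LinearMap.ext fun w => ?_
    obtain ⟨v, u⟩ := w
    have h1 : A.ρ (FreeGroup.of i)⁻¹ (A.ρ (FreeGroup.of i) u) = u := by
      rw [← Module.End.mul_apply, ← map_mul, inv_mul_cancel, map_one, Module.End.one_apply]
    refine Prod.ext rfl ?_
    change A.ρ (FreeGroup.of i)⁻¹ (A.ρ (FreeGroup.of i) u + v i - v i) = u
    rw [add_sub_cancel_right, h1]

/-- The action on `(Fin n → M) × M`. -/
private def big_rho : Fr n →* (Module.End ℚ ((Fin n → M) × M))ˣ :=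
  FreeGroup.lift (big_gen A)

/-- The value at `f` of the derivation with prescribed values on the generators. -/
def der (f : Fr n) : (Fin n → M) →ₗ[ℚ] M :=
  LinearMap.snd ℚ (Fin n → M) M ∘ₗ
    ((big_rho A f : (Module.End ℚ ((Fin n → M) × M))ˣ) : Module.End ℚ ((Fin n → M) × M)) ∘ₗ
    LinearMap.inl ℚ (Fin n → M) M

private theorem big_apply (f : Fr n) : ∀ (v : Fin n → M) (u : M),
    ((big_rho A f : (Module.End ℚ ((Fin n → M) × M))ˣ) : Module.End ℚ ((Fin n → M) × M)) (v, u) =
      (v, A.ρ f u + der A f v) := by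
  have key : ∀ (v : Fin n → M) (u : M), ∃ c : M, ∀ u' : M,
      ((big_rho A f : (Module.End ℚ ((Fin n → M) × M))ˣ) :
        Module.End ℚ ((Fin n → M) × M)) (v, u') = (v, A.ρ f u' + c) := by
    intro v _
    induction f using FreeGroup.induction_on with
    | C1 => exact ⟨0, fun u' => by rw [map_one, map_one]; simp⟩
    | of i => exact ⟨v i, fun u' => by rw [big_rho, FreeGroup.lift_apply_of]; rfl⟩
    | inv_of i _ =>
      refine ⟨- A.ρ (FreeGroup.of i)⁻¹ (v i), fun u' => ?_⟩
      rw [map_inv, big_rho, FreeGroup.lift_apply_of]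
      change (v, A.ρ (FreeGroup.of i)⁻¹ (u' - v i)) = _
      rw [map_sub, sub_eq_add_neg]
    | mul f g ihf ihg =>
      obtain ⟨c, hc⟩ := ihf
      obtain ⟨d, hd⟩ := ihg
      refine ⟨A.ρ f d + c, fun u' => ?_⟩
      rw [map_mul, Units.val_mul, Module.End.mul_apply, hd, hc, map_add, map_mul,
        Module.End.mul_apply, add_assoc]
  intro v u
  obtain ⟨c, hc⟩ := key v u
  have h1 : der A f v = c := by
    change (((big_rho A f : (Module.End ℚ ((Fin n → M) × M))ˣ) :
      Module.End ℚ ((Fin n → M) × M)) (v, 0)).2 = c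
    rw [hc, map_zero, zero_add]
  rw [hc, h1]

theorem der_mul (f g : Fr n) (v : Fin n → M) :
    der A (f * g) v = der A f v + A.ρ f (der A g v) := by
  have h1 := big_apply A (f * g) v 0
  rw [map_mul, Units.val_mul, Module.End.mul_apply, big_apply A g, big_apply A f, map_zero,
    zero_add, map_zero, zero_add] at h1
  have h2 : A.ρ f (der A g v) + der A f v = der A (f * g) v := congrArg Prod.snd h1
  rw [← h2, add_comm]

theorem der_of (i : Fin n) (v : Fin n → M) : der A (FreeGroup.of i) v = v i := by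
  have h1 := big_apply A (FreeGroup.of i) v 0
  rw [map_zero, zero_add] at h1
  have h2 := congrArg Prod.snd h1
  have h3 : der A (FreeGroup.of i) v = ((v, der A (FreeGroup.of i) v) : (Fin n → M) × M).2 := rfl
  rw [h3, ← h2, big_rho, FreeGroup.lift_apply_of]
  change A.ρ (FreeGroup.of i) 0 + v i = v i
  rw [map_zero, zero_add]

theorem der_one (v : Fin n → M) : der A 1 v = 0 := by
  have h1 := der_mul A 1 1 v
  rw [mul_one, map_one, Module.End.one_apply] at h1
  simpa using h1

/-- A derivation is determined by its values on the generators. -/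
theorem der_unique (d : Fr n → M) (hd : ∀ f g, d (f * g) = d f + A.ρ f (d g)) (f : Fr n) :
    d f = der A f (fun i => d (FreeGroup.of i)) := by
  have h1 : d 1 = 0 := by
    have h := hd 1 1
    rw [mul_one, map_one, Module.End.one_apply] at h
    simpa using h
  have hinv : ∀ (e : Fr n → M), (∀ f g, e (f * g) = e f + A.ρ f (e g)) → e 1 = 0 →
      ∀ f, e f⁻¹ = - A.ρ f⁻¹ (e f) := by
    intro e he he1 f
    have h := he f⁻¹ f
    rw [inv_mul_cancel, he1] at h
    exact eq_neg_of_add_eq_zero_left h.symm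
  induction f using FreeGroup.induction_on with
  | C1 => rw [h1, der_one]
  | of i => rw [der_of]
  | inv_of i ih =>
    rw [hinv d hd h1, hinv (fun f => der A f (fun i => d (FreeGroup.of i)))
      (fun f g => der_mul A f g _) (der_one A _), ih]
  | mul f g ihf ihg => rw [hd, der_mul, ihf, ihg]

/-- The operator `R` on the values of derivations. -/
def opR : Module.End ℚ (Fin n → M) :=
  LinearMap.pi fun i => A.T ∘ₗ der A (φ⁻¹ (FreeGroup.of i))

theorem opR_apply (v : Fin n → M) (i : Fin n) :
    opR A v i = A.T (der A (φ⁻¹ (FreeGroup.of i)) v) := rfl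

private theorem big_comm (f : Fr n) (w : M) : A.T (A.ρ (φ⁻¹ f) w) = A.ρ f (A.T w) := by
  rw [A.comm, MulAut.apply_inv_self]

theorem der_opR (f : Fr n) (v : Fin n → M) : der A f (opR A v) = A.T (der A (φ⁻¹ f) v) := by
  have h := der_unique A (fun f => A.T (der A (φ⁻¹ f) v)) (fun f g => by
    rw [map_mul, der_mul, map_add, big_comm]) f
  exact h.symm

theorem der_opR' (f : Fr n) (v : Fin n → M) : der A (φ f) (opR A v) = A.T (der A f v) := by
  rw [der_opR, MulAut.inv_apply_self]

theorem opR_inj : Function.Injective (opR A) := by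
  rw [← LinearMap.ker_eq_bot, LinearMap.ker_eq_bot']
  intro v hv
  funext i
  have h1 := der_opR' A (FreeGroup.of i) v
  rw [hv, map_zero, der_of] at h1
  exact A.inj (by rw [← h1]; simp)

/-- The extension of `M` by a stable space of derivations. -/
def extG (N : Submodule ℚ (Fin n → M)) (hN : ∀ v ∈ N, opR A v ∈ N) : GMod φ (N × M) where
  ρ :=
    { toFun := fun f => (LinearMap.fst ℚ N M).prod
        (A.ρ f ∘ₗ LinearMap.snd ℚ N M + der A f ∘ₗ N.subtype ∘ₗ LinearMap.fst ℚ N M)
      map_one' := by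
        refine LinearMap.ext fun w => ?_
        obtain ⟨v, u⟩ := w
        refine Prod.ext rfl ?_
        change A.ρ 1 u + der A 1 (v : Fin n → M) = u
        rw [map_one, der_one, add_zero, Module.End.one_apply]
      map_mul' := fun f g => by
        refine LinearMap.ext fun w => ?_
        obtain ⟨v, u⟩ := w
        refine Prod.ext rfl ?_
        change A.ρ (f * g) u + der A (f * g) (v : Fin n → M) =
          A.ρ f (A.ρ g u + der A g (v : Fin n → M)) + der A f (v : Fin n → M)
        rw [map_mul, der_mul, Module.End.mul_apply, map_add]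
        abel }
  T := ((opR A).restrict hN).prodMap A.T
  inj := by
    rintro ⟨v, u⟩ ⟨v', u'⟩ h
    have h1 : opR A (v : Fin n → M) = opR A (v' : Fin n → M) :=
      congrArg (fun w : N × M => ((w.1 : N) : Fin n → M)) h
    have h2 : A.T u = A.T u' := congrArg Prod.snd h
    exact Prod.ext (Subtype.ext (opR_inj A h1)) (A.inj h2)
  comm := fun f w => by
    obtain ⟨v, u⟩ := w
    refine Prod.ext rfl ?_
    change A.T (A.ρ f u + der A f (v : Fin n → M)) =
      A.ρ (φ f) (A.T u) + der A (φ f) (opR A (v : Fin n → M))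
    rw [map_add, A.comm, der_opR']

theorem extG_rho (N : Submodule ℚ (Fin n → M)) (hN : ∀ v ∈ N, opR A v ∈ N) (f : Fr n) (v : N)
    (u : M) : (extG A N hN).ρ f (v, u) = (v, A.ρ f u + der A f (v : Fin n → M)) := rfl

theorem extG_T (N : Submodule ℚ (Fin n → M)) (hN : ∀ v ∈ N, opR A v ∈ N) (v : N) (u : M) :
    (extG A N hN).T (v, u) = (⟨opR A v, hN v v.2⟩, A.T u) := rfl

end big

end Pool.Agent.H8.AP
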