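import Pool.Agent.H8.AP.Big

/-! # The extension by a space of derivations with unipotent `R` is unipotent -/

set_option autoImplicit false

namespace Pool.Agent.H8.AP

section extu

variable {n : ℕ} {φ : MulAut (Fr n)} {M : Type} [AddCommGroup M] [Module ℚ M] (A : GMod φ M)

/-- the operator `R - 1` -/
private abbrev eS : Module.End ℚ (Fin n → M) := opR A - 1

private theorem extu_S (N : Submodule ℚ (Fin n → M)) (hN : ∀ v ∈ N, opR A v ∈ N) :
    ∀ v ∈ N, eS A v ∈ N := fun v hv => by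
  rw [LinearMap.sub_apply, Module.End.one_apply]
  exact N.sub_mem (hN v hv) hv

private theorem extu_Sp (N : Submodule ℚ (Fin n → M)) (hN : ∀ v ∈ N, opR A v ∈ N) (i : ℕ) :
    ∀ v ∈ N, (eS A ^ i) v ∈ N := by
  induction i with
  | zero => intro v hv; simpa using hv
  | succ i ih =>
    intro v hv
    rw [pow_succ', Module.End.mul_apply]
    exact extu_S A N hN _ (ih v hv)

/-- the filtration of `N` -/
private def eN (N : Submodule ℚ (Fin n → M)) (i : ℕ) : Submodule ℚ (Fin n → M) :=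
  N.map (eS A ^ i)

private theorem eN_anti (N : Submodule ℚ (Fin n → M)) (hN : ∀ v ∈ N, opR A v ∈ N) :
    Antitone (eN A N) := by
  refine antitone_nat_of_succ_le fun i => ?_
  rintro _ ⟨w, hw, rfl⟩
  refine ⟨eS A w, extu_S A N hN w hw, ?_⟩
  rw [pow_succ, Module.End.mul_apply]

private theorem eN_R (N : Submodule ℚ (Fin n → M)) (hN : ∀ v ∈ N, opR A v ∈ N) (i : ℕ) :
    ∀ v ∈ eN A N i, opR A v ∈ eN A N i := by
  rintro _ ⟨w, hw, rfl⟩
  refine ⟨opR A w, hN w hw, ?_⟩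
  have hc : Commute (eS A ^ i) (opR A) :=
    Commute.pow_left ((Commute.refl (opR A)).sub_left (Commute.one_left _)) i
  exact LinearMap.congr_fun hc.eq w

private theorem eN_raise (N : Submodule ℚ (Fin n → M)) (hN : ∀ v ∈ N, opR A v ∈ N) (k : ℕ)
    (i : ℕ) : ∀ v ∈ eN A N i, (opR A ^ k) v - v ∈ eN A N (i + 1) := by
  intro v hv
  induction k with
  | zero => rw [pow_zero, Module.End.one_apply, sub_self]; exact Submodule.zero_mem _
  | succ k ih =>
    have h1 : (opR A ^ (k + 1)) v - v = opR A ((opR A ^ k) v - v) + eS A v := by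
      rw [pow_succ', Module.End.mul_apply, map_sub, LinearMap.sub_apply, Module.End.one_apply]
      abel
    rw [h1]
    refine Submodule.add_mem _ (eN_R A N hN _ _ ih) ?_
    obtain ⟨w, hw, rfl⟩ := hv
    refine ⟨w, hw, ?_⟩
    rw [pow_succ', Module.End.mul_apply]

theorem extG_pow (N : Submodule ℚ (Fin n → M)) (hN : ∀ v ∈ N, opR A v ∈ N) (k : ℕ) (v : N)
    (u : M) : ((((extG A N hN).T ^ k) (v, u)).1 : Fin n → M) = (opR A ^ k) (v : Fin n → M) ∧
      (((extG A N hN).T ^ k) (v, u)).2 = (A.T ^ k) u := by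
  induction k with
  | zero => exact ⟨by simp, by simp⟩
  | succ k ih =>
    obtain ⟨h1, h2⟩ := ih
    rw [pow_succ', Module.End.mul_apply, pow_succ', Module.End.mul_apply, pow_succ',
      Module.End.mul_apply]
    obtain ⟨w, hw⟩ : ∃ w, w = ((extG A N hN).T ^ k) (v, u) := ⟨_, rfl⟩
    rw [← hw] at h1 h2 ⊢
    obtain ⟨w1, w2⟩ := w
    change (w1 : Fin n → M) = _ at h1
    change w2 = _ at h2
    rw [extG_T, h2]
    refine ⟨?_, rfl⟩
    change opR A (w1 : Fin n → M) = _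
    rw [h1]

theorem extG_uni (N : Submodule ℚ (Fin n → M)) (hN : ∀ v ∈ N, opR A v ∈ N) (K : Subgroup (Fr n))
    (k : ℕ) (Fl : ℕ → Submodule ℚ M) (m : ℕ) (hA : Uni A K k Fl m) (D : ℕ)
    (hD : ∀ v ∈ N, ((opR A - 1) ^ D) v = 0) :
    ∃ Fl' : ℕ → Submodule ℚ (N × M), Uni (extG A N hN) K k Fl' (D + m) := by
  have hz : ∀ i, D ≤ i → ∀ v ∈ eN A N i, v = 0 := by
    intro i hi v hv
    have h1 := eN_anti A N hN hi hv
    obtain ⟨w, hw, rfl⟩ := h1
    exact hD w hw
  refine ⟨fun i => ((eN A N i).comap N.subtype).prod (Fl (i - D)), ?_, ?_, ?_, ?_, ?_, ?_, ?_⟩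
  · rintro i j hij ⟨v, u⟩ ⟨h1, h2⟩
    exact ⟨eN_anti A N hN hij h1, hA.anti (by omega) h2⟩
  · rw [eq_top_iff]
    rintro ⟨v, u⟩ _
    refine ⟨⟨v, v.2, by simp⟩, ?_⟩
    change u ∈ Fl (0 - D)
    rw [Nat.zero_sub, hA.top]
    exact Submodule.mem_top
  · rw [eq_bot_iff]
    rintro ⟨v, u⟩ ⟨h1, h2⟩
    have h3 : (v : Fin n → M) = 0 := hz _ (by omega) _ h1
    have h4 : u ∈ Fl m := by
      have h5 : u ∈ Fl (D + m - D) := h2
      rwa [Nat.add_sub_cancel_left] at h5
    rw [hA.bot, Submodule.mem_bot] at h4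
    rw [Submodule.mem_bot]
    exact Prod.ext (Subtype.ext h3) h4
  · rintro f i ⟨v, u⟩ ⟨h1, h2⟩
    rw [extG_rho]
    refine ⟨h1, ?_⟩
    change A.ρ f u + der A f (v : Fin n → M) ∈ Fl (i - D)
    by_cases hi : i ≤ D
    · rw [Nat.sub_eq_zero_of_le hi, hA.top]; exact Submodule.mem_top
    · have h3 : (v : Fin n → M) = 0 := hz _ (by omega) _ h1
      rw [h3, map_zero, add_zero]
      exact hA.presF f _ _ h2
  · rintro i ⟨v, u⟩ ⟨h1, h2⟩
    rw [extG_T]
    exact ⟨eN_R A N hN i _ h1, hA.presT _ _ h2⟩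
  · rintro f hf i ⟨v, u⟩ ⟨h1, h2⟩
    rw [extG_rho]
    refine ⟨?_, ?_⟩
    · change ((v - v : N) : Fin n → M) ∈ eN A N (i + 1)
      rw [sub_self]
      exact Submodule.zero_mem _
    · change A.ρ f u + der A f (v : Fin n → M) - u ∈ Fl (i + 1 - D)
      by_cases hi : i + 1 ≤ D
      · rw [Nat.sub_eq_zero_of_le hi, hA.top]; exact Submodule.mem_top
      · have h3 : (v : Fin n → M) = 0 := hz _ (by omega) _ h1
        rw [h3, map_zero, add_zero, show i + 1 - D = (i - D) + 1 by omega]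
        exact hA.raiseF f hf _ _ h2
  · rintro i ⟨v, u⟩ ⟨h1, h2⟩
    obtain ⟨e1, e2⟩ := extG_pow A N hN k v u
    refine ⟨?_, ?_⟩
    · change ((((extG A N hN).T ^ k) (v, u)).1 : Fin n → M) - (v : Fin n → M) ∈ eN A N (i + 1)
      rw [e1]
      exact eN_raise A N hN k i _ h1
    · change (((extG A N hN).T ^ k) (v, u)).2 - u ∈ Fl (i + 1 - D)
      rw [e2]
      by_cases hi : i + 1 ≤ D
      · rw [Nat.sub_eq_zero_of_le hi, hA.top]; exact Submodule.mem_top
      · rw [show i + 1 - D = (i - D) + 1 by omega]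
        exact hA.raiseT _ _ h2

end extu

end Pool.Agent.H8.AP
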