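import Pool.Agent.H8.AP.Defs
import Pool.Agent.H11.FC.Word
import Pool.Agent.H11.FC.AugRep

/-! # The augmentation powers of the group algebra of a free group

PROOFS. `J_zero`/`J_add`/`J_mul_left`: induction on `k` from the definition of `J` (see Defs).
`J_one`: `FreeGroup.induction_on`: `γ = 1`: all `x_i = 0`; `γ = x_i`: `x = Pi.single i 1`; `x_i⁻¹ - 1 = - x_i⁻¹ (x_i - 1)`;
`γ γ' - 1 = γ (γ' - 1) + (γ - 1)`, `J 1` is a left ideal.
`J_aug`: induction on `k`: `Aug.mul (Aug k x) (Aug.gen _)`, sums by `Aug.add`/`Aug.zero` (`Finset.sum_induction`).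
`RU_free`: H11/FC: for `γ ≠ 1` write `Monoid.Coprod.inr γ : FP Unit I` as `ev a₀ L`, `L` reduced (`exists_red` in H11/FC/NF);
`L ≠ []` (otherwise `inr γ = inl 1 = 1`, and `inr` is injective: `Monoid.Coprod.inr_injective`). Apply `word_rep` with `A = Unit`,
`G = Unit`, `κ = id`, `V = ℚ`, `ρ = 1` (trivial), `K = ∅`, `Fl 0 = ⊤`, `Fl (i+1) = ⊥`, `m = 1`; the hypotheses `h0`, `hS` are vacuous. The
representation `σ.comp Monoid.Coprod.inr` of `FreeGroup I` raises the flag (induction on words, generators raise, everything preserves),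
so `not_aug_of_rep` applies. -/

set_option autoImplicit false

namespace Pool.Agent.H8.AP

theorem J_zero {I : Type} [Fintype I] (k : ℕ) : J k (0 : QF I) := by
  induction k with
  | zero => exact trivial
  | succ k ih => exact ⟨fun _ => 0, fun _ => ih, by simp⟩

theorem J_add {I : Type} [Fintype I] {k : ℕ} {z w : QF I} (hz : J k z) (hw : J k w) :
    J k (z + w) := by
  induction k generalizing z w with
  | zero => exact trivial
  | succ k ih =>
    obtain ⟨x, hx, rfl⟩ := hz
    obtain ⟨y, hy, rfl⟩ := hw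
    refine ⟨fun i => x i + y i, fun i => ih (hx i) (hy i), ?_⟩
    rw [← Finset.sum_add_distrib]
    exact Finset.sum_congr rfl fun i _ => (add_mul _ _ _).symm

theorem J_mul_left {I : Type} [Fintype I] {k : ℕ} (a : QF I) {z : QF I} (hz : J k z) :
    J k (a * z) := by
  induction k generalizing z with
  | zero => exact trivial
  | succ k ih =>
    obtain ⟨x, hx, rfl⟩ := hz
    refine ⟨fun i => a * x i, fun i => ih (hx i), ?_⟩
    rw [Finset.mul_sum]
    exact Finset.sum_congr rfl fun i _ => (mul_assoc _ _ _).symm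

theorem J_one {I : Type} [Fintype I] (γ : FreeGroup I) : J 1 (gof γ - 1) := by
  classical
  have hgen : ∀ i : I, J 1 (gof (FreeGroup.of i) - 1) := by
    intro i
    refine ⟨Pi.single i 1, fun _ => trivial, ?_⟩
    rw [Finset.sum_eq_single i]
    · rw [Pi.single_eq_same, one_mul]
    · intro j _ hj
      rw [Pi.single_eq_of_ne hj, zero_mul]
    · intro h
      exact absurd (Finset.mem_univ i) h
  induction γ using FreeGroup.induction_on with
  | C1 =>
    rw [gof, map_one, sub_self]
    exact J_zero 1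
  | of i => exact hgen i
  | inv_of i _ =>
    have h1 : gof (FreeGroup.of i)⁻¹ - 1 =
        -gof (FreeGroup.of i)⁻¹ * (gof (FreeGroup.of i) - 1) := by
      rw [mul_sub, mul_one, neg_mul, ← map_mul, inv_mul_cancel, map_one]
      abel
    have h2 := J_mul_left (-gof (FreeGroup.of i)⁻¹) (hgen i)
    rw [← h1] at h2
    exact h2
  | mul x y hx hy =>
    have h1 : gof (x * y) - 1 = gof x * (gof y - 1) + (gof x - 1) := by
      rw [mul_sub, mul_one, gof, map_mul]
      abel
    rw [h1]
    exact J_add (J_mul_left _ hy) hx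

theorem J_aug {I : Type} [Fintype I] {k : ℕ} {z : QF I} (hz : J k z) :
    Pool.H11.FC.Aug (FreeGroup I) k z := by
  induction k generalizing z with
  | zero => exact Pool.H11.FC.Aug.top z
  | succ k ih =>
    obtain ⟨x, hx, rfl⟩ := hz
    refine Finset.sum_induction _ (fun r => Pool.H11.FC.Aug (FreeGroup I) (k + 1) r)
      (fun a b ha hb => Pool.H11.FC.Aug.add ha hb) (Pool.H11.FC.Aug.zero _) fun i _ => ?_
    exact Pool.H11.FC.Aug.mul (ih (hx i)) (Pool.H11.FC.Aug.gen (FreeGroup.of i))

private theorem freea_flag : Pool.H11.FC.Flag (1 : Representation ℚ Unit ℚ) ∅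
    (fun i => if i = 0 then ⊤ else ⊥) 1 where
  anti := by
    intro i j hij
    by_cases hi : i = 0
    · simp [hi]
    · have hj : j ≠ 0 := by omega
      simp [hi, hj]
  top := if_pos rfl
  bot := if_neg one_ne_zero
  pres := fun _ _ _ hv => hv
  raise := fun g hg => absurd hg (Set.notMem_empty g)

theorem RU_free (I : Type) : Pool.H11.FC.RU (FreeGroup I) := by
  intro γ hγ
  obtain ⟨a₀, L, hL, hev⟩ := Pool.H11.FC.exists_red (A := Unit) (ι := I) (Monoid.Coprod.inr γ)
  have hLne : L ≠ [] := by
    intro h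
    apply hγ
    apply Monoid.Coprod.inr_injective (M := Unit) (N := FreeGroup I)
    rw [hev, h, map_one]
    have ha : a₀ = 1 := rfl
    unfold Pool.H11.FC.ev
    rw [ha, map_one, List.map_nil, List.prod_nil, one_mul]
  obtain ⟨W, i1, i2, σ, Fl', M, hanti, htop, hbot, hpres, -, hx, hne⟩ :=
    Pool.H11.FC.word_rep (MonoidHom.id Unit) (1 : Representation ℚ Unit ℚ) ∅
      (fun i => if i = 0 then ⊤ else ⊥) 1 freea_flag a₀ L hL (fun h => absurd h hLne)
      (fun t _ h => absurd rfl h)
  refine ⟨M, ?_⟩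
  refine Pool.H11.FC.not_aug_of_rep (σ.comp (Monoid.Coprod.inr : FreeGroup I →* Pool.H11.FC.FP Unit I))
    Fl' M hanti htop hbot ?_ γ ?_
  · intro g
    induction g using FreeGroup.induction_on with
    | C1 =>
      intro j w _
      rw [map_one, Module.End.one_apply, sub_self]
      exact (Fl' (j + 1)).zero_mem
    | of i => exact hx i
    | inv_of i _ =>
      intro j w hw
      have h1 := hx i j w hw
      have h2 := hpres (Pool.H11.FC.xx i)⁻¹ (j + 1) _ h1
      have h3 : σ (Pool.H11.FC.xx i)⁻¹ (σ (Pool.H11.FC.xx i) w) = w := by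
        rw [← Module.End.mul_apply, ← map_mul, inv_mul_cancel, map_one, Module.End.one_apply]
      rw [map_sub, h3] at h2
      have h4 := (Fl' (j + 1)).neg_mem h2
      rw [neg_sub] at h4
      exact h4
    | mul x y ihx ihy =>
      intro j w hw
      have h1 := ihy j w hw
      have h2 := hpres (Monoid.Coprod.inr x) (j + 1) _ h1
      have h3 := (Fl' (j + 1)).add_mem h2 (ihx j w hw)
      rw [map_mul, Module.End.mul_apply]
      have h4 : (σ.comp (Monoid.Coprod.inr : FreeGroup I →* Pool.H11.FC.FP Unit I)) x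
          ((σ.comp (Monoid.Coprod.inr : FreeGroup I →* Pool.H11.FC.FP Unit I)) y w) - w =
          σ (Monoid.Coprod.inr x) ((σ.comp (Monoid.Coprod.inr : FreeGroup I →* Pool.H11.FC.FP Unit I))
            y w - w) + ((σ.comp (Monoid.Coprod.inr : FreeGroup I →* Pool.H11.FC.FP Unit I)) x w - w) := by
        rw [map_sub, MonoidHom.comp_apply, MonoidHom.comp_apply]
        abel
      rw [h4]
      exact h3
  · intro h
    apply hne
    rw [← hev]
    exact h

theorem exists_not_J {I : Type} [Fintype I] (γ : FreeGroup I) (hγ : γ ≠ 1) :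
    ∃ k, ¬ J k (gof γ - 1) := by
  obtain ⟨k, hk⟩ := RU_free I γ hγ
  exact ⟨k, fun h => hk (J_aug h)⟩

end Pool.Agent.H8.AP
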