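import Pool.Agent.H8.AP.Defs

/-! # Tensor products of modules of the mapping torus -/

set_option autoImplicit false

namespace Pool.Agent.H8.AP

open TensorProduct

section tens

variable {n : ℕ} {φ : MulAut (Fr n)} {V W : Type} [AddCommGroup V] [Module ℚ V]
  [AddCommGroup W] [Module ℚ W]

/-- The tensor product. -/
noncomputable def tensG [FiniteDimensional ℚ V] [FiniteDimensional ℚ W] (A : GMod φ V)
    (B : GMod φ W) : GMod φ (V ⊗[ℚ] W) where
  ρ :=
    { toFun := fun f => TensorProduct.map (A.ρ f) (B.ρ f)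
      map_one' := by
        rw [map_one, map_one]
        exact TensorProduct.map_id
      map_mul' := fun f g => by
        rw [map_mul, map_mul]
        exact TensorProduct.map_comp _ _ _ _ }
  T := TensorProduct.map A.T B.T
  inj := by
    have h1 : TensorProduct.map A.T B.T =
        ((TensorProduct.congr (LinearEquiv.ofInjectiveEndo A.T A.inj)
          (LinearEquiv.ofInjectiveEndo B.T B.inj)) : V ⊗[ℚ] W →ₗ[ℚ] V ⊗[ℚ] W) := by
      refine TensorProduct.ext' fun v w => ?_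
      simp
    rw [h1]
    exact LinearEquiv.injective _
  comm := fun f x => by
    have h1 : (TensorProduct.map A.T B.T) ∘ₗ (TensorProduct.map (A.ρ f) (B.ρ f)) =
        (TensorProduct.map (A.ρ (φ f)) (B.ρ (φ f))) ∘ₗ (TensorProduct.map A.T B.T) := by
      refine TensorProduct.ext' fun v w => ?_
      change (A.T (A.ρ f v)) ⊗ₜ[ℚ] (B.T (B.ρ f w)) =
        (A.ρ (φ f) (A.T v)) ⊗ₜ[ℚ] (B.ρ (φ f) (B.T w))
      rw [A.comm, B.comm]
    exact LinearMap.congr_fun h1 x

variable [FiniteDimensional ℚ V] [FiniteDimensional ℚ W] (A : GMod φ V) (B : GMod φ W)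

theorem tensG_rho (f : Fr n) (v : V) (w : W) :
    (tensG A B).ρ f (v ⊗ₜ[ℚ] w) = (A.ρ f v) ⊗ₜ[ℚ] (B.ρ f w) := rfl

theorem tensG_T (v : V) (w : W) :
    (tensG A B).T (v ⊗ₜ[ℚ] w) = (A.T v) ⊗ₜ[ℚ] (B.T w) := rfl

theorem tensG_Tpow (k : ℕ) (v : V) (w : W) :
    ((tensG A B).T ^ k) (v ⊗ₜ[ℚ] w) = ((A.T ^ k) v) ⊗ₜ[ℚ] ((B.T ^ k) w) := by
  induction k with
  | zero => rfl
  | succ k ih =>
    rw [pow_succ', Module.End.mul_apply, ih, tensG_T, pow_succ', Module.End.mul_apply, pow_succ',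
      Module.End.mul_apply]

/-- The filtration of the tensor product. -/
private def tF (FA : ℕ → Submodule ℚ V) (FB : ℕ → Submodule ℚ W) (i : ℕ) :
    Submodule ℚ (V ⊗[ℚ] W) :=
  Submodule.span ℚ {x | ∃ a b v w, v ∈ FA a ∧ w ∈ FB b ∧ i ≤ a + b ∧ x = v ⊗ₜ[ℚ] w}

private theorem tF_mem {FA : ℕ → Submodule ℚ V} {FB : ℕ → Submodule ℚ W} {i a b : ℕ} {v : V}
    {w : W} (hv : v ∈ FA a) (hw : w ∈ FB b) (h : i ≤ a + b) : v ⊗ₜ[ℚ] w ∈ tF FA FB i :=
  Submodule.subset_span ⟨a, b, v, w, hv, hw, h, rfl⟩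

theorem tensG_uni (K : Subgroup (Fr n)) (k : ℕ) (FA : ℕ → Submodule ℚ V)
    (FB : ℕ → Submodule ℚ W) (mA mB : ℕ) (hA : Uni A K k FA mA) (hB : Uni B K k FB mB) :
    ∃ Fl : ℕ → Submodule ℚ (V ⊗[ℚ] W), Uni (tensG A B) K k Fl (mA + mB) := by
  refine ⟨tF FA FB, ?_, ?_, ?_, ?_, ?_, ?_, ?_⟩
  · refine antitone_nat_of_succ_le fun i => Submodule.span_mono ?_
    rintro x ⟨a, b, v, w, hv, hw, h, rfl⟩
    exact ⟨a, b, v, w, hv, hw, by omega, rfl⟩
  · rw [eq_top_iff, ← TensorProduct.span_tmul_eq_top ℚ V W]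
    refine Submodule.span_mono ?_
    rintro x ⟨v, w, rfl⟩
    refine ⟨0, 0, v, w, ?_, ?_, by omega, rfl⟩
    · rw [hA.top]; exact Submodule.mem_top
    · rw [hB.top]; exact Submodule.mem_top
  · rw [eq_bot_iff]
    refine Submodule.span_le.2 ?_
    rintro x ⟨a, b, v, w, hv, hw, h, rfl⟩
    change v ⊗ₜ[ℚ] w ∈ (⊥ : Submodule ℚ (V ⊗[ℚ] W))
    rw [Submodule.mem_bot]
    by_cases ha : mA ≤ a
    · have h1 := hA.anti ha hv
      rw [hA.bot, Submodule.mem_bot] at h1
      rw [h1, TensorProduct.zero_tmul]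
    · have h1 := hB.anti (show mB ≤ b by omega) hw
      rw [hB.bot, Submodule.mem_bot] at h1
      rw [h1, TensorProduct.tmul_zero]
  · intro f i x hx
    refine Submodule.span_induction (p := fun x _ => (tensG A B).ρ f x ∈ tF FA FB i) ?_ ?_ ?_ ?_ hx
    · rintro x ⟨a, b, v, w, hv, hw, h, rfl⟩
      rw [tensG_rho]
      exact tF_mem (hA.presF f _ _ hv) (hB.presF f _ _ hw) h
    · rw [map_zero]; exact Submodule.zero_mem _
    · intro x y _ _ h1 h2
      rw [map_add]; exact Submodule.add_mem _ h1 h2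
    · intro c x _ h1
      rw [map_smul]; exact Submodule.smul_mem _ _ h1
  · intro i x hx
    refine Submodule.span_induction (p := fun x _ => (tensG A B).T x ∈ tF FA FB i) ?_ ?_ ?_ ?_ hx
    · rintro x ⟨a, b, v, w, hv, hw, h, rfl⟩
      rw [tensG_T]
      exact tF_mem (hA.presT _ _ hv) (hB.presT _ _ hw) h
    · rw [map_zero]; exact Submodule.zero_mem _
    · intro x y _ _ h1 h2
      rw [map_add]; exact Submodule.add_mem _ h1 h2
    · intro c x _ h1
      rw [map_smul]; exact Submodule.smul_mem _ _ h1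
  · intro f hf i x hx
    refine Submodule.span_induction
      (p := fun x _ => (tensG A B).ρ f x - x ∈ tF FA FB (i + 1)) ?_ ?_ ?_ ?_ hx
    · rintro x ⟨a, b, v, w, hv, hw, h, rfl⟩
      have e1 : (tensG A B).ρ f (v ⊗ₜ[ℚ] w) - v ⊗ₜ[ℚ] w =
          (A.ρ f v - v) ⊗ₜ[ℚ] (B.ρ f w) + v ⊗ₜ[ℚ] (B.ρ f w - w) := by
        rw [tensG_rho, TensorProduct.sub_tmul, TensorProduct.tmul_sub]
        abel
      rw [e1]
      exact Submodule.add_mem _
        (tF_mem (hA.raiseF f hf _ _ hv) (hB.presF f _ _ hw) (by omega))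
        (tF_mem hv (hB.raiseF f hf _ _ hw) (by omega))
    · rw [map_zero, sub_zero]; exact Submodule.zero_mem _
    · intro x y _ _ h1 h2
      rw [map_add, add_sub_add_comm]; exact Submodule.add_mem _ h1 h2
    · intro c x _ h1
      rw [map_smul, ← smul_sub]; exact Submodule.smul_mem _ _ h1
  · intro i x hx
    have hAk : ∀ a v, v ∈ FA a → (A.T ^ k) v ∈ FA a := by
      intro a v hv
      have h1 := (FA a).add_mem (hA.anti (Nat.le_succ a) (hA.raiseT a v hv)) hv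
      rwa [sub_add_cancel] at h1
    have hBk : ∀ b w, w ∈ FB b → (B.T ^ k) w ∈ FB b := by
      intro b w hw
      have h1 := (FB b).add_mem (hB.anti (Nat.le_succ b) (hB.raiseT b w hw)) hw
      rwa [sub_add_cancel] at h1
    refine Submodule.span_induction
      (p := fun x _ => ((tensG A B).T ^ k) x - x ∈ tF FA FB (i + 1)) ?_ ?_ ?_ ?_ hx
    · rintro x ⟨a, b, v, w, hv, hw, h, rfl⟩
      have e1 : ((tensG A B).T ^ k) (v ⊗ₜ[ℚ] w) - v ⊗ₜ[ℚ] w =
          ((A.T ^ k) v - v) ⊗ₜ[ℚ] ((B.T ^ k) w) + v ⊗ₜ[ℚ] ((B.T ^ k) w - w) := by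
        rw [tensG_Tpow, TensorProduct.sub_tmul, TensorProduct.tmul_sub]
        abel
      rw [e1]
      exact Submodule.add_mem _
        (tF_mem (hA.raiseT _ _ hv) (hBk _ _ hw) (by omega))
        (tF_mem hv (hB.raiseT _ _ hw) (by omega))
    · rw [map_zero, sub_zero]; exact Submodule.zero_mem _
    · intro x y _ _ h1 h2
      rw [map_add, add_sub_add_comm]; exact Submodule.add_mem _ h1 h2
    · intro c x _ h1
      rw [map_smul, ← smul_sub]; exact Submodule.smul_mem _ _ h1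

end tens

end Pool.Agent.H8.AP
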