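import Pool.Agent.H8.AP.Fit
import Pool.Agent.H8.AP.ExtU
import Pool.Agent.H8.AP.Tens
import Pool.Agent.H8.AP.FreeA

/-! # Core: every element of a free group on elements with independent derivations is detected -/

set_option autoImplicit false

namespace Pool.Agent.H8.AP

open TensorProduct

section core

variable {n : ℕ} {φ : MulAut (Fr n)}

theorem act_gof {V : Type} [AddCommGroup V] [Module ℚ V] (A : GMod φ V) {I : Type}
    (y : I → Fr n) (γ : FreeGroup I) : act A y (gof γ) = A.ρ (FreeGroup.lift y γ) := by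
  unfold act
  simp [gof]

/-- The vanishing of a contraction. -/
private theorem core_li {U W I : Type} [AddCommGroup U] [Module ℚ U] [AddCommGroup W]
    [Module ℚ W] [Fintype I] (w : I → W) (hw : LinearIndependent ℚ w) (v : I → U)
    (h : ∑ i, v i ⊗ₜ[ℚ] w i = 0) (i : I) : v i = 0 := by
  classical
  obtain ⟨c, hc⟩ : ∃ c : W →ₗ[ℚ] ℚ, ∀ j, c (w j) = if j = i then 1 else 0 := by
    obtain ⟨c, hc⟩ := LinearMap.exists_extend
      ((Finsupp.lapply i : (I →₀ ℚ) →ₗ[ℚ] ℚ) ∘ₗ hw.repr)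
    refine ⟨c, fun j => ?_⟩
    have h1 := LinearMap.congr_fun hc ⟨w j, Submodule.subset_span ⟨j, rfl⟩⟩
    change c (w j) = _ at h1
    rw [h1, LinearMap.comp_apply, hw.repr_eq_single j _ rfl, Finsupp.lapply_apply,
      Finsupp.single_apply]
  have h1 := congrArg (TensorProduct.lift ((LinearMap.lsmul ℚ U).flip.compl₂ c)) h
  rw [map_sum, map_zero] at h1
  simpa [hc] using h1

/-- The stage `s` of the construction. -/
def Stage (φ : MulAut (Fr n)) (K : Subgroup (Fr n)) (k : ℕ) {I : Type} [Fintype I]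
    (y : I → Fr n) (s : ℕ) : Prop :=
  ∃ (U : Type) (_ : AddCommGroup U) (_ : Module ℚ U) (_ : FiniteDimensional ℚ U) (A : GMod φ U)
    (Up : Submodule ℚ U) (e : U) (Fl : ℕ → Submodule ℚ U) (l : ℕ),
    Uni A K k Fl l ∧
    (∀ f u, A.ρ f u - u ∈ Up) ∧
    (∀ u ∈ Up, A.T u ∈ Up) ∧
    (∃ D, ((A.T - 1) ^ D : Module.End ℚ U) e ∈ Up) ∧
    (∀ z : QF I, J s z → ∀ u ∈ Up, act A y z u = 0) ∧
    (∀ z : QF I, J s z → act A y z e = 0 → J (s + 1) z)

private theorem stage_zero (K : Subgroup (Fr n)) (k : ℕ) {I : Type} [Fintype I]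
    (y : I → Fr n) : Stage φ K k y 0 := by
  let A : GMod φ ℚ :=
    { ρ := 1
      T := 1
      inj := fun _ _ h => h
      comm := fun _ _ => rfl }
  have hA : ∀ f, A.ρ f = 1 := fun f => rfl
  refine ⟨ℚ, inferInstance, inferInstance, inferInstance, A, ⊥, 1,
    fun i => if i = 0 then ⊤ else ⊥, 1, ⟨?_, ?_, ?_, ?_, ?_, ?_, ?_⟩, ?_, ?_, ?_, ?_, ?_⟩
  · intro i j hij
    by_cases hj : j = 0
    · have hi : i = 0 := by omega
      simp [hi, hj]
    · simp [hj]
  · simp
  · simp
  · intro f i v hv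
    exact hv
  · intro i v hv
    exact hv
  · intro f _ i v _
    have h1 : A.ρ f v - v = 0 := by rw [hA, Module.End.one_apply, sub_self]
    rw [h1]; exact Submodule.zero_mem _
  · intro i v _
    have h1 : (A.T ^ k) v - v = 0 := by
      change ((1 : Module.End ℚ ℚ) ^ k) v - v = 0
      rw [one_pow, Module.End.one_apply, sub_self]
    rw [h1]; exact Submodule.zero_mem _
  · intro f v
    rw [hA, Module.End.one_apply, sub_self]
    exact Submodule.zero_mem _
  · intro u hu
    exact hu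
  · refine ⟨1, ?_⟩
    change (((1 : Module.End ℚ ℚ) - 1) ^ 1 : Module.End ℚ ℚ) (1 : ℚ) ∈ (⊥ : Submodule ℚ ℚ)
    simp
  · intro z _ u hu
    rw [(Submodule.mem_bot ℚ).1 hu, map_zero]
  · intro z _ hz
    -- `z - (augmentation) ∈ J 1`
    have key : ∀ z : QF I, J 1 (z - (act A y z (1 : ℚ)) • (1 : QF I)) := by
      intro z
      induction z using MonoidAlgebra.induction_on with
      | of γ =>
        have h1 : act A y (gof γ) (1 : ℚ) = 1 := by rw [act_gof, hA, Module.End.one_apply]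
        change J 1 (gof γ - (act A y (gof γ) (1 : ℚ)) • (1 : QF I))
        rw [h1, one_smul]
        exact J_one γ
      | add z w hz hw =>
        have h1 : z + w - (act A y (z + w) (1 : ℚ)) • (1 : QF I) =
            (z - (act A y z (1 : ℚ)) • (1 : QF I)) + (w - (act A y w (1 : ℚ)) • (1 : QF I)) := by
          rw [map_add, LinearMap.add_apply, add_smul]
          abel
        rw [h1]
        exact J_add hz hw
      | smul c z hz =>
        have h1 : c • z - (act A y (c • z) (1 : ℚ)) • (1 : QF I) =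
            (c • (1 : QF I)) * (z - (act A y z (1 : ℚ)) • (1 : QF I)) := by
          rw [map_smul, LinearMap.smul_apply, smul_mul_assoc, one_mul, smul_sub, smul_smul,
            smul_eq_mul]
        rw [h1]
        exact J_mul_left _ hz
    have h1 := key z
    rwa [hz, zero_smul, sub_zero] at h1

/-- the submodule `Up ⊗ W` -/
private def mP {U : Type} (W : Type) [AddCommGroup U] [Module ℚ U] [AddCommGroup W] [Module ℚ W]
    (Up : Submodule ℚ U) : Submodule ℚ (U ⊗[ℚ] W) :=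
  Submodule.span ℚ {x | ∃ u ∈ Up, ∃ w : W, x = u ⊗ₜ[ℚ] w}

private theorem mP_mem {U W : Type} [AddCommGroup U] [Module ℚ U] [AddCommGroup W] [Module ℚ W]
    {Up : Submodule ℚ U} {u : U} (hu : u ∈ Up) (w : W) : u ⊗ₜ[ℚ] w ∈ mP W Up :=
  Submodule.subset_span ⟨u, hu, w, rfl⟩

private theorem mP_map {U W X : Type} [AddCommGroup U] [Module ℚ U] [AddCommGroup W] [Module ℚ W]
    [AddCommGroup X] [Module ℚ X] {Up : Submodule ℚ U} (g : U ⊗[ℚ] W →ₗ[ℚ] X) (Q : Submodule ℚ X)
    (hg : ∀ u ∈ Up, ∀ w : W, g (u ⊗ₜ[ℚ] w) ∈ Q) : ∀ x ∈ mP W Up, g x ∈ Q := by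
  intro x hx
  have h1 : mP W Up ≤ Q.comap g := by
    refine Submodule.span_le.2 ?_
    rintro x ⟨u, hu, w, rfl⟩
    exact hg u hu w
  exact h1 hx

private theorem der_inv {M : Type} [AddCommGroup M] [Module ℚ M] (A : GMod φ M) (f : Fr n)
    (v : Fin n → M) : der A f⁻¹ v = - A.ρ f⁻¹ (der A f v) := by
  have h1 := der_mul A f⁻¹ f v
  rw [inv_mul_cancel, der_one] at h1
  exact eq_neg_of_add_eq_zero_left h1.symm

private theorem der_mem {M : Type} [AddCommGroup M] [Module ℚ M] (A : GMod φ M)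
    (Q : Submodule ℚ M) (hQ : ∀ f, ∀ v ∈ Q, A.ρ f v ∈ Q) (v : Fin n → M) (hv : ∀ i, v i ∈ Q)
    (f : Fr n) : der A f v ∈ Q := by
  induction f using FreeGroup.induction_on with
  | C1 => rw [der_one]; exact Q.zero_mem
  | of i => rw [der_of]; exact hv i
  | inv_of i ih => rw [der_inv]; exact Q.neg_mem (hQ _ _ ih)
  | mul f g ihf ihg => rw [der_mul]; exact Q.add_mem ihf (hQ _ _ ihg)

private theorem stage_succ (K : Subgroup (Fr n)) (k : ℕ) {I : Type} [Fintype I]
    (y : I → Fr n) {W : Type} [AddCommGroup W] [Module ℚ W] [FiniteDimensional ℚ W]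
    (B : GMod φ W) (FlW : ℕ → Submodule ℚ W) (mW : ℕ) (hB : Uni B K k FlW mW)
    (d : Fr n → W) (hd : ∀ f g, d (f * g) = d f + B.ρ f (d g)) (hdT : ∀ f, d (φ f) = B.T (d f))
    (hy : ∀ i, B.ρ (y i) = 1) (hli : LinearIndependent ℚ (fun i => d (y i))) (s : ℕ)
    (hs : Stage φ K k y s) : Stage φ K k y (s + 1) := by
  obtain ⟨U, i1, i2, i3, A, Up, e, Fl, l, hU, h1, h2, ⟨D, h3⟩, h4, h5⟩ := hs
  obtain ⟨FlM, hM⟩ := tensG_uni A B K k Fl FlW l mW hU hB
  -- the tensor product module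
  obtain ⟨AM, hAM⟩ : ∃ AM, AM = tensG A B := ⟨_, rfl⟩
  rw [← hAM] at hM
  have hrho : ∀ f u (w : W), AM.ρ f (u ⊗ₜ[ℚ] w) = (A.ρ f u) ⊗ₜ[ℚ] (B.ρ f w) := by
    intro f u w; rw [hAM]; rfl
  have hT : ∀ u (w : W), AM.T (u ⊗ₜ[ℚ] w) = (A.T u) ⊗ₜ[ℚ] (B.T w) := by
    intro u w; rw [hAM]; rfl
  have hUp : ∀ f, ∀ u ∈ Up, A.ρ f u ∈ Up := by
    intro f u hu
    have h := Up.add_mem (h1 f u) hu
    rwa [sub_add_cancel] at h
  have hPrho : ∀ f, ∀ x ∈ mP W Up, AM.ρ f x ∈ mP W Up := by
    intro f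
    refine mP_map _ _ fun u hu w => ?_
    rw [hrho]
    exact mP_mem (hUp f u hu) _
  have hPT : ∀ x ∈ mP W Up, AM.T x ∈ mP W Up := by
    refine mP_map _ _ fun u hu w => ?_
    rw [hT]
    exact mP_mem (h2 u hu) _
  -- the vectors `u ⊗ d x_j`
  obtain ⟨eps, heps⟩ : ∃ eps : U →ₗ[ℚ] (Fin n → U ⊗[ℚ] W),
      ∀ u j, eps u j = u ⊗ₜ[ℚ] d (FreeGroup.of j) :=
    ⟨LinearMap.pi fun j => (TensorProduct.mk ℚ U W).flip (d (FreeGroup.of j)),
      fun u j => rfl⟩
  have hd1 : d 1 = 0 := by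
    have h := hd 1 1
    rw [mul_one, map_one, Module.End.one_apply] at h
    simpa using h
  have hder : ∀ u f, der AM f (eps u) - u ⊗ₜ[ℚ] d f ∈ mP W Up := by
    intro u f
    have hstep : ∀ f g, der AM g (eps u) - u ⊗ₜ[ℚ] d g ∈ mP W Up →
        der AM (f * g) (eps u) - u ⊗ₜ[ℚ] d (f * g) - (der AM f (eps u) - u ⊗ₜ[ℚ] d f) ∈
          mP W Up := by
      intro f g hg
      have e1 : der AM (f * g) (eps u) - u ⊗ₜ[ℚ] d (f * g) -
          (der AM f (eps u) - u ⊗ₜ[ℚ] d f) =
          AM.ρ f (der AM g (eps u) - u ⊗ₜ[ℚ] d g) + (A.ρ f u - u) ⊗ₜ[ℚ] (B.ρ f (d g)) := by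
        rw [der_mul, hd, map_sub, hrho, TensorProduct.tmul_add, TensorProduct.sub_tmul]
        abel
      rw [e1]
      exact Submodule.add_mem _ (hPrho _ _ hg) (mP_mem (h1 f u) _)
    induction f using FreeGroup.induction_on with
    | C1 => rw [der_one, hd1, TensorProduct.tmul_zero, sub_zero]; exact Submodule.zero_mem _
    | of i => rw [der_of, heps, sub_self]; exact Submodule.zero_mem _
    | inv_of i ih =>
      have h := hstep (FreeGroup.of i)⁻¹ (FreeGroup.of i) ih
      rw [inv_mul_cancel, der_one, hd1, TensorProduct.tmul_zero, sub_zero, zero_sub,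
        Submodule.neg_mem_iff] at h
      exact h
    | mul f g ihf ihg =>
      have h := Submodule.add_mem _ (hstep f g ihg) ihf
      rwa [sub_add_cancel] at h
  -- the submodule `Y`
  let Y : Submodule ℚ (Fin n → U ⊗[ℚ] W) := Submodule.pi Set.univ fun _ => mP W Up
  have hYmem : ∀ v : Fin n → U ⊗[ℚ] W, v ∈ Y ↔ ∀ j, v j ∈ mP W Up := by
    intro v
    simp [Y, Submodule.mem_pi]
  have hYR : ∀ v ∈ Y, (opR AM - 1) v ∈ Y := by
    intro v hv
    rw [LinearMap.sub_apply, Module.End.one_apply]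
    refine Y.sub_mem ?_ hv
    rw [hYmem] at hv ⊢
    intro j
    rw [opR_apply]
    exact hPT _ (der_mem AM _ hPrho v hv _)
  have hepsR : ∀ u, (opR AM - 1) (eps u) - eps ((A.T - 1) u) ∈ Y := by
    intro u
    rw [hYmem]
    intro j
    have e1 : ((opR AM - 1) (eps u) - eps ((A.T - 1) u)) j =
        AM.T (der AM (φ⁻¹ (FreeGroup.of j)) (eps u) - u ⊗ₜ[ℚ] d (φ⁻¹ (FreeGroup.of j))) := by
      have e2 : B.T (d (φ⁻¹ (FreeGroup.of j))) = d (FreeGroup.of j) := by
        rw [← hdT, MulAut.apply_inv_self]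
      rw [map_sub, hT, e2, Pi.sub_apply, heps, LinearMap.sub_apply, Module.End.one_apply,
        Pi.sub_apply, heps, opR_apply, LinearMap.sub_apply, Module.End.one_apply,
        TensorProduct.sub_tmul]
      abel
    rw [e1]
    exact hPT _ (hder u _)
  have hepsD : ∀ i u, ((opR AM - 1) ^ i : Module.End ℚ (Fin n → U ⊗[ℚ] W)) (eps u) -
      eps (((A.T - 1) ^ i : Module.End ℚ U) u) ∈ Y := by
    intro i
    induction i with
    | zero => intro u; simp
    | succ i ih =>
      intro u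
      have e1 : ((opR AM - 1) ^ (i + 1) : Module.End ℚ (Fin n → U ⊗[ℚ] W)) (eps u) -
          eps (((A.T - 1) ^ (i + 1) : Module.End ℚ U) u) =
          (opR AM - 1) (((opR AM - 1) ^ i : Module.End ℚ (Fin n → U ⊗[ℚ] W)) (eps u) -
            eps (((A.T - 1) ^ i : Module.End ℚ U) u)) +
          ((opR AM - 1) (eps (((A.T - 1) ^ i : Module.End ℚ U) u)) -
            eps ((A.T - 1) (((A.T - 1) ^ i : Module.End ℚ U) u))) := by
        rw [pow_succ', Module.End.mul_apply, pow_succ', Module.End.mul_apply, map_sub]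
        abel
      rw [e1]
      exact Y.add_mem (hYR _ (ih u)) (hepsR _)
  have hepsY : ((opR AM - 1) ^ D : Module.End ℚ (Fin n → U ⊗[ℚ] W)) (eps e) ∈ Y := by
    have h6 : eps (((A.T - 1) ^ D : Module.End ℚ U) e) ∈ Y := by
      rw [hYmem]
      intro j
      rw [heps]
      exact mP_mem h3 _
    have h := Y.add_mem (hepsD D e) h6
    rwa [sub_add_cancel] at h
  obtain ⟨κ, ⟨N, hN⟩, hκ⟩ := fit_lift (opR AM - 1) Y hYR (eps e) D hepsY
  -- the extension
  let L : Submodule ℚ (Fin n → U ⊗[ℚ] W) :=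
    LinearMap.ker ((opR AM - 1) ^ N : Module.End ℚ (Fin n → U ⊗[ℚ] W))
  have hL : ∀ v ∈ L, opR AM v ∈ L := by
    intro v hv
    have hc : Commute ((opR AM - 1) ^ N : Module.End ℚ (Fin n → U ⊗[ℚ] W)) (opR AM) :=
      Commute.pow_left ((Commute.refl (opR AM)).sub_left (Commute.one_left _)) N
    have h6 := LinearMap.congr_fun hc.eq v
    rw [Module.End.mul_apply, Module.End.mul_apply, LinearMap.mem_ker.1 hv, map_zero] at h6
    exact LinearMap.mem_ker.2 h6
  obtain ⟨Fl', hFl'⟩ := extG_uni AM L hL K k FlM (l + mW) hM N (fun v hv => LinearMap.mem_ker.1 hv)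
  -- actions of the group algebra
  have hactM : ∀ (z : QF I) (u : U) (w : W),
      act AM y z (u ⊗ₜ[ℚ] w) = (act A y z u) ⊗ₜ[ℚ] w := by
    intro z u w
    induction z using MonoidAlgebra.induction_on with
    | of γ =>
      change act AM y (gof γ) (u ⊗ₜ[ℚ] w) = (act A y (gof γ) u) ⊗ₜ[ℚ] w
      rw [act_gof, act_gof, hrho]
      have h6 : B.ρ (FreeGroup.lift y γ) = 1 := by
        have h7 : B.ρ.comp (FreeGroup.lift y) = 1 := by
          ext i
          simp [hy]
        exact DFunLike.congr_fun h7 γ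
      rw [h6, Module.End.one_apply]
    | add z z' hz hz' =>
      rw [map_add, LinearMap.add_apply, hz, hz', map_add, LinearMap.add_apply,
        TensorProduct.add_tmul]
    | smul c z hz =>
      rw [map_smul, LinearMap.smul_apply, hz, map_smul, LinearMap.smul_apply,
        TensorProduct.smul_tmul']
  have hactE : ∀ (z : QF I) (m : U ⊗[ℚ] W),
      act (extG AM L hL) y z ((0 : L), m) = ((0 : L), act AM y z m) := by
    intro z m
    induction z using MonoidAlgebra.induction_on with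
    | of γ =>
      change act (extG AM L hL) y (gof γ) ((0 : L), m) = ((0 : L), act AM y (gof γ) m)
      rw [act_gof, act_gof, extG_rho]
      refine Prod.ext rfl ?_
      change AM.ρ _ m + der AM _ ((0 : L) : Fin n → U ⊗[ℚ] W) = _
      rw [Submodule.coe_zero, map_zero, add_zero]
    | add z z' hz hz' =>
      rw [map_add, LinearMap.add_apply, hz, hz', map_add, LinearMap.add_apply, Prod.mk_add_mk,
        add_zero]
    | smul c z hz =>
      rw [map_smul, LinearMap.smul_apply, hz, map_smul, LinearMap.smul_apply, Prod.smul_mk,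
        smul_zero]
  have hkillU : ∀ z : QF I, J (s + 1) z → ∀ u, act A y z u = 0 := by
    rintro z ⟨x, hx, rfl⟩ u
    rw [map_sum, LinearMap.sum_apply]
    refine Finset.sum_eq_zero fun i _ => ?_
    rw [map_mul, Module.End.mul_apply]
    refine h4 _ (hx i) _ ?_
    rw [map_sub, map_one, act_gof, FreeGroup.lift_apply_of, LinearMap.sub_apply,
      Module.End.one_apply]
    exact h1 _ _
  have hkillM : ∀ z : QF I, J (s + 1) z → ∀ m, act AM y z m = 0 := by
    intro z hz m
    induction m using TensorProduct.induction_on with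
    | zero => rw [map_zero]
    | tmul u w => rw [hactM, hkillU z hz, TensorProduct.zero_tmul]
    | add a b ha hb => rw [map_add, ha, hb, add_zero]
  have hkillP : ∀ z : QF I, J s z → ∀ m ∈ mP W Up, act AM y z m = 0 := by
    intro z hz m hm
    have h6 := mP_map (act AM y z) (⊥ : Submodule ℚ (U ⊗[ℚ] W)) (fun u hu w => by
      rw [hactM, h4 z hz u hu, TensorProduct.zero_tmul]
      exact Submodule.zero_mem _) m hm
    exact (Submodule.mem_bot ℚ).1 h6
  refine ⟨L × (U ⊗[ℚ] W), inferInstance, inferInstance, inferInstance, extG AM L hL,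
    Submodule.prod ⊥ ⊤, (⟨κ, LinearMap.mem_ker.2 hN⟩, 0), Fl', N + (l + mW), hFl', ?_, ?_, ?_,
    ?_, ?_⟩
  · rintro f ⟨v, m⟩
    rw [extG_rho]
    refine ⟨?_, Submodule.mem_top⟩
    change v - v ∈ (⊥ : Submodule ℚ L)
    rw [sub_self]
    exact Submodule.zero_mem _
  · rintro ⟨v, m⟩ ⟨hv, _⟩
    have hv0 : v = 0 := (Submodule.mem_bot ℚ).1 hv
    subst hv0
    rw [extG_T]
    refine ⟨?_, Submodule.mem_top⟩
    rw [SetLike.mem_coe, Submodule.mem_bot]
    apply Subtype.ext
    change opR AM ((0 : L) : Fin n → U ⊗[ℚ] W) = _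
    rw [Submodule.coe_zero, map_zero]
  · refine ⟨N, ?_⟩
    have key : ∀ i (v : L) (m : U ⊗[ℚ] W),
        (((((extG AM L hL).T - 1) ^ i : Module.End ℚ (L × (U ⊗[ℚ] W))) (v, m)).1 :
          Fin n → U ⊗[ℚ] W) =
        ((opR AM - 1) ^ i : Module.End ℚ (Fin n → U ⊗[ℚ] W)) (v : Fin n → U ⊗[ℚ] W) := by
      intro i
      induction i with
      | zero => intro v m; rfl
      | succ i ih =>
        intro v m
        rw [pow_succ, Module.End.mul_apply, pow_succ, Module.End.mul_apply, LinearMap.sub_apply,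
          Module.End.one_apply, extG_T, Prod.mk_sub_mk, ih]
        rfl
    refine ⟨?_, Submodule.mem_top⟩
    rw [SetLike.mem_coe, Submodule.mem_bot]
    apply Subtype.ext
    rw [key, Submodule.coe_zero]
    exact hN
  · rintro z hz ⟨v, m⟩ ⟨hv, _⟩
    have hv0 : v = 0 := (Submodule.mem_bot ℚ).1 hv
    subst hv0
    rw [hactE, hkillM z hz]
    rfl
  · rintro z ⟨x, hx, rfl⟩ hz
    refine ⟨x, fun i => ?_, rfl⟩
    -- compute
    have e1 : ∀ i, act (extG AM L hL) y (gof (FreeGroup.of i) - 1)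
        ((⟨κ, LinearMap.mem_ker.2 hN⟩ : L), (0 : U ⊗[ℚ] W)) = ((0 : L), der AM (y i) κ) := by
      intro i
      rw [map_sub, map_one, act_gof, FreeGroup.lift_apply_of, LinearMap.sub_apply,
        Module.End.one_apply, extG_rho, Prod.mk_sub_mk, sub_self, map_zero, zero_add, sub_zero]
    have e2 : ∀ i, act AM y (x i) (der AM (y i) κ) = (act A y (x i) e) ⊗ₜ[ℚ] d (y i) := by
      intro i
      have e3 : der AM (y i) κ = e ⊗ₜ[ℚ] d (y i) +
          (der AM (y i) (κ - eps e) + (der AM (y i) (eps e) - e ⊗ₜ[ℚ] d (y i))) := by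
        rw [map_sub]; abel
      rw [e3, map_add, hactM, hkillP (x i) (hx i) _ (Submodule.add_mem _
        (der_mem AM _ hPrho _ ((hYmem _).1 hκ) _) (hder e _)), add_zero]
    rw [map_sum, LinearMap.sum_apply] at hz
    simp only [map_mul, Module.End.mul_apply, e1, hactE, e2] at hz
    have h6 : ∑ i, (act A y (x i) e) ⊗ₜ[ℚ] d (y i) = 0 := by
      have h7 := congrArg Prod.snd hz
      rw [Prod.snd_sum] at h7
      exact h7
    exact h5 _ (hx i) (core_li _ hli _ h6 i)

/-- The main construction. -/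
theorem core (K : Subgroup (Fr n)) (k : ℕ) {I : Type} [Fintype I]
    (y : I → Fr n) {W : Type} [AddCommGroup W] [Module ℚ W] [FiniteDimensional ℚ W]
    (B : GMod φ W) (FlW : ℕ → Submodule ℚ W) (mW : ℕ) (hB : Uni B K k FlW mW)
    (d : Fr n → W) (hd : ∀ f g, d (f * g) = d f + B.ρ f (d g)) (hdT : ∀ f, d (φ f) = B.T (d f))
    (hy : ∀ i, B.ρ (y i) = 1) (hli : LinearIndependent ℚ (fun i => d (y i)))
    (γ : FreeGroup I) (hγ : γ ≠ 1) :
    ∃ (U : Type) (_ : AddCommGroup U) (_ : Module ℚ U) (_ : FiniteDimensional ℚ U)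
      (A : GMod φ U) (Fl : ℕ → Submodule ℚ U) (l : ℕ), Uni A K k Fl l ∧
      A.ρ (FreeGroup.lift y γ) ≠ 1 := by
  by_contra hcon
  push Not at hcon
  have hstage : ∀ s, Stage φ K k y s := by
    intro s
    induction s with
    | zero => exact stage_zero K k y
    | succ s ih => exact stage_succ K k y B FlW mW hB d hd hdT hy hli s ih
  have hJ : ∀ s, J s (gof γ - 1) := by
    intro s
    induction s with
    | zero => trivial
    | succ s ih =>
      obtain ⟨U, i1, i2, i3, A, Up, e, Fl, l, hU, h1, h2, h3, h4, h5⟩ := hstage s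
      refine h5 _ ih ?_
      rw [map_sub, map_one, act_gof, hcon U i1 i2 i3 A Fl l hU, sub_self, LinearMap.zero_apply]
  obtain ⟨s, hs⟩ := exists_not_J γ hγ
  exact hs (hJ s)

end core

end Pool.Agent.H8.AP
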