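import Pool.Agent.H11.FC.Defs

/-! # Project AP: the Alexander polynomial criterion (MP_065d68_al), working definitions -/

set_option autoImplicit false

namespace Pool.Agent.H8.AP

open Polynomial

/-- Free group of rank `n`. -/
abbrev Fr (n : ℕ) : Type := FreeGroup (Fin n)

/-- The free abelian group of rank `m`, written multiplicatively. -/
abbrev Zm (m : ℕ) : Type := Multiplicative (Fin m → ℤ)

/-- Laurent polynomials in `m` variables over the rationals. -/
abbrev Laur (m : ℕ) : Type := MonoidAlgebra ℚ (Zm m)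

/-- monomials -/
noncomputable abbrev mono {m : ℕ} (z : Zm m) : Laur m := MonoidAlgebra.of ℚ (Zm m) z

/-- The affine action of the free group on `(Laur m)^n`. -/
noncomputable def foxAct {n m : ℕ} (θ : Fr n →* Zm m) : Fr n →* Equiv.Perm (Fin n → Laur m) :=
  FreeGroup.lift fun i =>
    { toFun := fun v => Pi.single i 1 + mono (θ (FreeGroup.of i)) • v
      invFun := fun v => mono (θ (FreeGroup.of i))⁻¹ • (v - Pi.single i 1)
      left_inv := fun v => by
        change mono (θ (FreeGroup.of i))⁻¹ • (Pi.single i 1 + mono (θ (FreeGroup.of i)) • v -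
          Pi.single i 1) = v
        rw [add_sub_cancel_left, smul_smul, ← map_mul, inv_mul_cancel, map_one, one_smul]
      right_inv := fun v => by
        change Pi.single i 1 + mono (θ (FreeGroup.of i)) • (mono (θ (FreeGroup.of i))⁻¹ •
          (v - Pi.single i 1)) = v
        rw [smul_smul, ← map_mul, mul_inv_cancel, map_one, one_smul, add_sub_cancel] }

/-- The vector of Fox derivatives of a word, evaluated by `θ`. -/
noncomputable def fox {n m : ℕ} (θ : Fr n →* Zm m) (f : Fr n) : Fin n → Laur m := foxAct θ f 0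

/-- The Fox matrix of an automorphism. -/
noncomputable def foxMat {n m : ℕ} (θ : Fr n →* Zm m) (φ : MulAut (Fr n)) :
    Matrix (Fin n) (Fin n) (Laur m) :=
  Matrix.of fun i j => fox θ (φ (FreeGroup.of i)) j

/-- A polynomial over `Laur m` vanishes at a point with coordinates of order dividing `k`. -/
def VanAt {m : ℕ} (k : ℕ) (π : (Laur m)[X]) : Prop :=
  ∃ (χ : Zm m →* ℂ) (τ : ℂ), (∀ z, χ z ^ k = 1) ∧ τ ^ k = 1 ∧
    Polynomial.eval₂ (MonoidAlgebra.lift ℚ ℂ (Zm m) χ : Laur m →+* ℂ) τ π = 0

/-- A module for the mapping torus of `φ`: an action of the free group and an injective operator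
`T` with `T f = φ(f) T`. -/
structure GMod {n : ℕ} (φ : MulAut (Fr n)) (V : Type) [AddCommGroup V] [Module ℚ V] where
  ρ : Fr n →* Module.End ℚ V
  T : Module.End ℚ V
  inj : Function.Injective T
  comm : ∀ f v, T (ρ f v) = ρ (φ f) (T v)

/-- The subgroup of the elements with left part in `K` and right part in `k ℤ` acts unipotently
with respect to the flag `Fl` of length `m`. -/
structure Uni {n : ℕ} {φ : MulAut (Fr n)} {V : Type} [AddCommGroup V] [Module ℚ V]
    (A : GMod φ V) (K : Subgroup (Fr n)) (k : ℕ) (Fl : ℕ → Submodule ℚ V) (m : ℕ) : Prop where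
  anti : Antitone Fl
  top : Fl 0 = ⊤
  bot : Fl m = ⊥
  presF : ∀ f i v, v ∈ Fl i → A.ρ f v ∈ Fl i
  presT : ∀ i v, v ∈ Fl i → A.T v ∈ Fl i
  raiseF : ∀ f ∈ K, ∀ i v, v ∈ Fl i → A.ρ f v - v ∈ Fl (i + 1)
  raiseT : ∀ i v, v ∈ Fl i → (A.T ^ k) v - v ∈ Fl (i + 1)

/-- The group algebra of the free group on `I`. -/
abbrev QF (I : Type) : Type := MonoidAlgebra ℚ (FreeGroup I)

/-- group elements in the group algebra -/
noncomputable abbrev gof {I : Type} (γ : FreeGroup I) : QF I := MonoidAlgebra.of ℚ (FreeGroup I) γ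

/-- Powers of the augmentation ideal: `J 0` is everything and `J (k+1) = ∑ J k (x_i - 1)`. -/
def J {I : Type} [Fintype I] : ℕ → QF I → Prop
  | 0 => fun _ => True
  | k + 1 => fun z => ∃ x : I → QF I, (∀ i, J k (x i)) ∧ z = ∑ i, x i * (gof (FreeGroup.of i) - 1)

/-- The action of the group algebra of the free group on `I`, mapped by `y` to the group. -/
noncomputable def act {n : ℕ} {φ : MulAut (Fr n)} {V : Type} [AddCommGroup V] [Module ℚ V]
    (A : GMod φ V) {I : Type} (y : I → Fr n) : QF I →ₐ[ℚ] Module.End ℚ V :=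
  MonoidAlgebra.lift ℚ (Module.End ℚ V) (FreeGroup I) (A.ρ.comp (FreeGroup.lift y))

end Pool.Agent.H8.AP
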