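import Pool.Agent.H8.AP.Defs

/-! # Finite codimension

`Ik m k` = the ideal of `(Laur m)[X]` generated by the `z^k - 1` (`z ∈ Zm m`, constants) and `X^k - 1`.
PROOF of `fin_quot`. `A = (Laur m)[X] ⧸ Ik^j` is a `ℚ`-algebra of finite type, generated by (the classes of) `mono z`, for finitely many `z`, and `X`; each of them is integral over `ℚ`:
it is a root of `(T^k - 1)^j` since `(z^k - 1)^j ∈ Ik^j`. So `A` is integral over `ℚ` (`Algebra.adjoin` of integral elements, `IsIntegral`), and finite type + integral = finite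
(`Algebra.IsIntegral.finite`, `Algebra.finite_iff_isIntegral_and_finiteType`). `Module.Finite ℚ` = `FiniteDimensional`.
`fin_mod`: `M ⧸ (Ik^j • ⊤)` is a finitely generated `A`-module (for `M` finitely generated over `(Laur m)[X]`), e.g. a quotient of `A^s`; so it is finite over `ℚ`. -/

set_option autoImplicit false

namespace Pool.Agent.H8.AP

open Polynomial

/-- The ideal of the points with coordinates of order dividing `k`. -/
noncomputable def Ik (m k : ℕ) : Ideal (Laur m)[X] :=
  Ideal.span (Set.range fun z : Zm m => (C (mono z) : (Laur m)[X]) ^ k - 1) ⊔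
    Ideal.span {(X : (Laur m)[X]) ^ k - 1}

private theorem finQ_root {A : Type} [CommRing A] [Algebra ℚ A] {k : ℕ} (hk : 0 < k) {j : ℕ}
    {a : A} (h : (a ^ k - 1) ^ j = 0) : IsIntegral ℚ a := by
  refine ⟨((X : ℚ[X]) ^ k - 1) ^ j, ?_, ?_⟩
  · have h1 : ((X : ℚ[X]) ^ k - 1).Monic := by
      have := monic_X_pow_sub_C (1 : ℚ) hk.ne'
      rwa [C_1] at this
    exact h1.pow j
  · rw [eval₂_pow, eval₂_sub, eval₂_X_pow, eval₂_one, h]

private theorem finQ_gen {m k j : ℕ} (hk : 0 < k) {A : Type} [CommRing A] [Algebra ℚ A]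
    (φ : (Laur m)[X] →ₐ[ℚ] A) (hs : Function.Surjective φ) (hq : ∀ p ∈ Ik m k, φ p ^ j = 0) :
    Module.Finite ℚ A := by
  have hX : IsIntegral ℚ (φ X) := by
    refine finQ_root hk (j := j) ?_
    have h := hq ((X : (Laur m)[X]) ^ k - 1)
      (Ideal.mem_sup_right (Ideal.subset_span (Set.mem_singleton _)))
    rwa [map_sub, map_pow, map_one] at h
  have hC : ∀ z : Zm m, IsIntegral ℚ (φ (C (mono z))) := by
    intro z
    refine finQ_root hk (j := j) ?_
    have h := hq ((C (mono z) : (Laur m)[X]) ^ k - 1)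
      (Ideal.mem_sup_left (Ideal.subset_span ⟨z, rfl⟩))
    rwa [map_sub, map_pow, map_one] at h
  have hL : ∀ a : Laur m, IsIntegral ℚ (φ (C a)) := by
    intro a
    induction a using MonoidAlgebra.induction_on with
    | of z => exact hC z
    | add a b ha hb =>
      rw [C_add, map_add]
      exact ha.add hb
    | smul r a ha =>
      rw [← smul_C, map_smul]
      exact ha.smul r
  have hint : Algebra.IsIntegral ℚ A := by
    refine ⟨fun x => ?_⟩
    obtain ⟨p, rfl⟩ := hs x
    induction p using Polynomial.induction_on' with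
    | add p q hp hq =>
      rw [map_add]
      exact hp.add hq
    | monomial n a =>
      rw [← C_mul_X_pow_eq_monomial, map_mul, map_pow]
      exact (hL a).mul (hX.pow n)
  have hft : Algebra.FiniteType ℚ A := Algebra.FiniteType.of_surjective φ hs
  exact Algebra.IsIntegral.finite

theorem fin_quot (m k j : ℕ) (hk : 0 < k) : Module.Finite ℚ ((Laur m)[X] ⧸ Ik m k ^ j) := by
  have hs : Function.Surjective (Ideal.Quotient.mkₐ ℚ (Ik m k ^ j)) :=
    Ideal.Quotient.mk_surjective
  have hq : ∀ p ∈ Ik m k, Ideal.Quotient.mkₐ ℚ (Ik m k ^ j) p ^ j = 0 := by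
    intro p hp
    have h : Ideal.Quotient.mk (Ik m k ^ j) p ^ j = 0 := by
      rw [← map_pow]
      exact Ideal.Quotient.eq_zero_iff_mem.2 (Ideal.pow_mem_pow hp j)
    exact h
  exact finQ_gen (m := m) (j := j) (A := (Laur m)[X] ⧸ Ik m k ^ j) hk
    (Ideal.Quotient.mkₐ ℚ (Ik m k ^ j)) hs hq

theorem fin_mod (m k j : ℕ) (hk : 0 < k) {M : Type} [AddCommGroup M] [Module (Laur m)[X] M]
    [Module ℚ M] [IsScalarTower ℚ (Laur m)[X] M] [Module.Finite (Laur m)[X] M] :
    Module.Finite ℚ (M ⧸ (Ik m k ^ j • ⊤ : Submodule (Laur m)[X] M)) := by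
  have h1 := fin_quot m k j hk
  have h2 : Module.Finite ((Laur m)[X] ⧸ Ik m k ^ j)
      (M ⧸ (Ik m k ^ j • ⊤ : Submodule (Laur m)[X] M)) :=
    Module.Finite.of_restrictScalars_finite (Laur m)[X] _ _
  have h3 : IsScalarTower ℚ ((Laur m)[X] ⧸ Ik m k ^ j)
      (M ⧸ (Ik m k ^ j • ⊤ : Submodule (Laur m)[X] M)) := by
    refine ⟨fun r a x => ?_⟩
    obtain ⟨a, rfl⟩ := Ideal.Quotient.mk_surjective a
    obtain ⟨x, rfl⟩ := Submodule.Quotient.mk_surjective _ x
    have e1 : r • Ideal.Quotient.mk (Ik m k ^ j) a = Ideal.Quotient.mk (Ik m k ^ j) (r • a) := rfl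
    rw [e1]
    change Submodule.Quotient.mk ((r • a) • x) = r • Submodule.Quotient.mk (a • x)
    rw [smul_assoc]
    rfl
  exact Module.Finite.trans ((Laur m)[X] ⧸ Ik m k ^ j) _

end Pool.Agent.H8.AP
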