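import Pool.Agent.H8.AP.Shap

/-! # If `θ` has rank at least two, the reduced polynomial vanishes at the point `(1,...,1)`

`hr`: the rank of `θ` is at least 2: there are `a, b` such that the vectors `θ a`, `θ b` in `ℤ^m` are `ℤ`-linearly independent (written out).
PROOF. Let `ev : Laur m →+* ℂ` be the augmentation (`lift` of the trivial character). `ev` maps the Fox matrix to the matrix `B` (`B i j` = exponent sum of `x_j` in `φ (x_i)`, as
`ev ∘ fox θ` is additive: `ev (fox θ (f g)) = ev (fox θ f) + ev (fox θ g)`), and `charpoly` commutes with `Matrix.map` (`Matrix.charpoly_map`). For `l : Fin m` let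
`t_l : Fin n → ℂ`, `t_l j = (θ x_j)_l`. Then `∑ j, (ev (fox θ f)) j * t_l j = (θ f)_l` for all `f` (both sides additive in `f`), and `θ (φ x_i) = θ x_i` gives `B *ᵥ t_l = t_l`.
Since the rank of `θ` is `≥ 2`, two of the vectors in the span of the `t_l` are linearly independent over `ℂ`: choose a 2 × 2 minor `(θ a)_l (θ b)_{l'} - (θ a)_{l'} (θ b)_l ≠ 0`; then `t_l, t_{l'}` are
linearly independent. So the eigenspace of `B` for `1` has dimension `≥ 2` and `(X - 1)^2 ∣ charpoly B` (e.g. the geometric multiplicity is at most the algebraic one: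
`LinearMap.finrank_maxGenEigenspace_eq`/`Module.End`, or: `derivative charpoly` at `1` is the sum of the principal `(n-1)`-minors of `1 - B`, or conjugate `B` by an invertible matrix whose first two
columns are the eigenvectors). With `charpoly = (X - 1) q` mapped by `ev`: `(X - 1)^2 ∣ (X - 1) q̄` so `q̄ (1) = 0`. -/

set_option autoImplicit false

namespace Pool.Agent.H8.AP

open Polynomial

/-- the augmentation -/
private noncomputable def rankEv (m : ℕ) : Laur m →+* ℂ :=
  (MonoidAlgebra.lift ℚ ℂ (Zm m) (1 : Zm m →* ℂ) : Laur m →+* ℂ)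

private theorem rank_ev_mono {m : ℕ} (z : Zm m) : rankEv m (mono z) = 1 := by
  simp [rankEv, mono]

private theorem rank_fox_one {n m : ℕ} (θ : Fr n →* Zm m) : fox θ 1 = 0 := by
  have h := fox_mul θ 1 1
  have e : (mono (1 : Zm m) : Laur m) = 1 := map_one _
  rw [mul_one, map_one, e, one_smul] at h
  exact left_eq_add.1 h

/-- augmented Fox derivative -/
private noncomputable def rankE {n m : ℕ} (θ : Fr n →* Zm m) (f : Fr n) (j : Fin n) : ℂ :=
  rankEv m (fox θ f j)

private theorem rankE_mul {n m : ℕ} (θ : Fr n →* Zm m) (f g : Fr n) (j : Fin n) :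
    rankE θ (f * g) j = rankE θ f j + rankE θ g j := by
  unfold rankE
  rw [fox_mul, Pi.add_apply, Pi.smul_apply, smul_eq_mul, map_add, map_mul, rank_ev_mono, one_mul]

/-- the pairing as a homomorphism -/
private noncomputable def rankHom {n m : ℕ} (θ : Fr n →* Zm m) (t : Fin n → ℂ) :
    Fr n →* Multiplicative ℂ where
  toFun f := Multiplicative.ofAdd (∑ j, rankE θ f j * t j)
  map_one' := by
    simp [rankE, rank_fox_one]
  map_mul' f g := by
    rw [← ofAdd_add, ← Finset.sum_add_distrib]
    congr 1
    refine Finset.sum_congr rfl fun j _ => ?_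
    rw [rankE_mul, add_mul]

/-- a coordinate of `θ` as a homomorphism -/
private noncomputable def rankTh {n m : ℕ} (θ : Fr n →* Zm m) (l : Fin m) :
    Fr n →* Multiplicative ℂ where
  toFun f := Multiplicative.ofAdd ((Multiplicative.toAdd (θ f) l : ℤ) : ℂ)
  map_one' := by simp
  map_mul' f g := by
    rw [map_mul, toAdd_mul, Pi.add_apply, Int.cast_add, ofAdd_add]

private noncomputable def rankT {n m : ℕ} (θ : Fr n →* Zm m) (l : Fin m) (j : Fin n) : ℂ :=
  ((Multiplicative.toAdd (θ (FreeGroup.of j)) l : ℤ) : ℂ)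

private theorem rank_pair {n m : ℕ} (θ : Fr n →* Zm m) (l : Fin m) (f : Fr n) :
    ∑ j, rankE θ f j * rankT θ l j = ((Multiplicative.toAdd (θ f) l : ℤ) : ℂ) := by
  have h : rankHom θ (rankT θ l) = rankTh θ l := by
    refine FreeGroup.ext_hom _ _ fun i => ?_
    change Multiplicative.ofAdd (∑ j, rankE θ (FreeGroup.of i) j * rankT θ l j) =
      Multiplicative.ofAdd ((Multiplicative.toAdd (θ (FreeGroup.of i)) l : ℤ) : ℂ)
    congr 1
    rw [Finset.sum_eq_single i]
    · simp [rankE, fox_of, rankT]
    · intro j _ hj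
      simp [rankE, fox_of, Pi.single_eq_of_ne hj]
    · intro hi
      exact absurd (Finset.mem_univ i) hi
  exact congrArg Multiplicative.toAdd (DFunLike.congr_fun h f)

theorem van_one {n m : ℕ} (θ : Fr n →* Zm m) (φ : MulAut (Fr n)) (hθ : ∀ f, θ (φ f) = θ f)
    (a b : Fr n) (hr : ∀ i j : ℤ, θ a ^ i * θ b ^ j = 1 → i = 0 ∧ j = 0)
    (q : (Laur m)[X]) (hq : (foxMat θ φ).charpoly = (X - 1) * q) : VanAt 1 q := by
  classical
  set B : Matrix (Fin n) (Fin n) ℂ := (foxMat θ φ).map (rankEv m) with hB
  have hBij : ∀ i j, B i j = rankE θ (φ (FreeGroup.of i)) j := fun i j => rfl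
  -- the vectors are fixed
  have hfix : ∀ l : Fin m, Matrix.toLin' B (rankT θ l) = rankT θ l := by
    intro l
    rw [Matrix.toLin'_apply]
    funext i
    change ∑ j, B i j * rankT θ l j = _
    have h := rank_pair θ l (φ (FreeGroup.of i))
    rw [hθ] at h
    exact h
  -- the matrix has a double eigenvalue
  have hmin : ∃ l l' : Fin m, (Multiplicative.toAdd (θ a) l) * (Multiplicative.toAdd (θ b) l') ≠
      (Multiplicative.toAdd (θ a) l') * (Multiplicative.toAdd (θ b) l) := by
    by_contra hcon
    push Not at hcon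
    -- θ a is nonzero
    have ha : ∃ l, Multiplicative.toAdd (θ a) l ≠ 0 := by
      by_contra h0
      push Not at h0
      have h1 : θ a = 1 := by
        apply Multiplicative.toAdd.injective
        funext l
        rw [h0 l]; rfl
      have := hr 1 0 (by rw [h1]; simp)
      exact one_ne_zero this.1
    obtain ⟨l, hl⟩ := ha
    have h2 := hr (-(Multiplicative.toAdd (θ b) l)) (Multiplicative.toAdd (θ a) l) (by
      apply Multiplicative.toAdd.injective
      funext l'
      rw [toAdd_mul, toAdd_zpow, toAdd_zpow, toAdd_one]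
      simp only [Pi.add_apply, Pi.smul_apply, smul_eq_mul, Pi.zero_apply]
      have := hcon l l'
      linarith)
    exact hl h2.2
  obtain ⟨l, l', hll⟩ := hmin
  have hind : LinearIndependent ℂ ![rankT θ l, rankT θ l'] := by
    rw [LinearIndependent.pair_iff]
    intro s t hst
    -- pairing with any f
    have hp : ∀ f : Fr n, s * ((Multiplicative.toAdd (θ f) l : ℤ) : ℂ) +
        t * ((Multiplicative.toAdd (θ f) l' : ℤ) : ℂ) = 0 := by
      intro f
      rw [← rank_pair θ l f, ← rank_pair θ l' f, Finset.mul_sum, Finset.mul_sum,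
        ← Finset.sum_add_distrib]
      refine Finset.sum_eq_zero fun j _ => ?_
      have hj := congrFun hst j
      simp only [Pi.add_apply, Pi.smul_apply, smul_eq_mul, Pi.zero_apply] at hj
      linear_combination rankE θ f j * hj
    have h1 := hp a
    have h2 := hp b
    have hne : ((Multiplicative.toAdd (θ a) l : ℤ) : ℂ) * ((Multiplicative.toAdd (θ b) l' : ℤ) : ℂ) -
        ((Multiplicative.toAdd (θ a) l' : ℤ) : ℂ) * ((Multiplicative.toAdd (θ b) l : ℤ) : ℂ) ≠ 0 := by
      rw [sub_ne_zero]
      exact_mod_cast hll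
    constructor
    · refine (mul_eq_zero.1 (?_ : s * _ = 0)).resolve_right hne
      linear_combination ((Multiplicative.toAdd (θ b) l' : ℤ) : ℂ) * h1 -
        ((Multiplicative.toAdd (θ a) l' : ℤ) : ℂ) * h2
    · refine (mul_eq_zero.1 (?_ : t * _ = 0)).resolve_right hne
      linear_combination ((Multiplicative.toAdd (θ a) l : ℤ) : ℂ) * h2 -
        ((Multiplicative.toAdd (θ b) l : ℤ) : ℂ) * h1
  have hrank : 2 ≤ Module.finrank ℂ (Module.End.genEigenspace (Matrix.toLin' B) 1 1) := by
    have hmem : ∀ i : Fin 2, (![rankT θ l, rankT θ l'] : Fin 2 → Fin n → ℂ) i ∈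
        Module.End.genEigenspace (Matrix.toLin' B) 1 1 := by
      intro i
      rw [Module.End.mem_genEigenspace_one]
      fin_cases i
      · simpa using hfix l
      · simpa using hfix l'
    have hli : LinearIndependent ℂ (fun i : Fin 2 =>
        (⟨(![rankT θ l, rankT θ l'] : Fin 2 → Fin n → ℂ) i, hmem i⟩ :
          Module.End.genEigenspace (Matrix.toLin' B) 1 1)) := by
      refine LinearIndependent.of_comp (Submodule.subtype _) ?_
      exact hind
    have := hli.fintype_card_le_finrank
    simpa using this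
  have hmult : 2 ≤ B.charpoly.rootMultiplicity 1 := by
    have h := LinearMap.finrank_genEigenspace_le (Matrix.toLin' B) 1 1
    rw [Matrix.charpoly_toLin'] at h
    exact hrank.trans h
  have hchar : B.charpoly = (X - 1) * q.map (rankEv m) := by
    rw [hB, Matrix.charpoly_map, hq, Polynomial.map_mul, Polynomial.map_sub, Polynomial.map_X,
      Polynomial.map_one]
  have hdvd : (X - C (1 : ℂ)) ^ 2 ∣ B.charpoly := by
    exact (Polynomial.le_rootMultiplicity_iff (Matrix.charpoly_monic B).ne_zero).1 hmult
  rw [hchar, pow_two, Polynomial.C_1, mul_dvd_mul_iff_left (by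
    rw [← Polynomial.C_1]; exact Polynomial.X_sub_C_ne_zero 1)] at hdvd
  have hroot : (q.map (rankEv m)).eval 1 = 0 := by
    rw [← Polynomial.IsRoot.def, ← Polynomial.dvd_iff_isRoot, Polynomial.C_1]
    exact hdvd
  refine ⟨1, 1, fun z => by simp, by simp, ?_⟩
  rw [Polynomial.eval_map] at hroot
  exact hroot

end Pool.Agent.H8.AP
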