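import Pool.Agent.H8.AP.Main
import Pool.Agent.H8.AP.Rank
import Pool.Agent.H11.FC.VR

/-! # The three statements -/

set_option autoImplicit false

namespace Pool.Agent.H8.AP

open Polynomial Pool.H11.FC

section final

variable {n m : ℕ}

private theorem fin_van_dvd {k l : ℕ} (hkl : k ∣ l) {π : (Laur m)[X]} (h : VanAt k π) :
    VanAt l π := by
  obtain ⟨χ, τ, h1, h2, h3⟩ := h
  obtain ⟨c, rfl⟩ := hkl
  exact ⟨χ, τ, fun z => by rw [pow_mul, h1, one_pow], by rw [pow_mul, h2, one_pow], h3⟩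

private theorem fin_van_assoc {k : ℕ} {π ρ : (Laur m)[X]} (h : VanAt k π) (hd : π ∣ ρ) :
    VanAt k ρ := by
  obtain ⟨χ, τ, h1, h2, h3⟩ := h
  obtain ⟨c, rfl⟩ := hd
  exact ⟨χ, τ, h1, h2, by rw [Polynomial.eval₂_mul, h3, zero_mul]⟩

/-- If every irreducible factor vanishes at a torsion point, there is a common order. -/
theorem common_order (D : (Laur m)[X]) (hD : D ≠ 0)
    (h : ∀ π : (Laur m)[X], Irreducible π → π ∣ D → ∃ k, 0 < k ∧ VanAt k π) :
    ∃ k, 0 < k ∧ ∀ π : (Laur m)[X], Irreducible π → π ∣ D → VanAt k π := by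
  have := laur_dom m
  have := laur_ufd m
  obtain ⟨f, hf, hfD⟩ := UniqueFactorizationMonoid.exists_prime_factors D hD
  have key : ∀ s : Multiset (Laur m)[X], (∀ π ∈ s, Irreducible π ∧ π ∣ D) →
      ∃ k, 0 < k ∧ ∀ π ∈ s, VanAt k π := by
    intro s
    induction s using Multiset.induction_on with
    | empty => exact fun _ => ⟨1, one_pos, fun π hπ => absurd hπ (Multiset.notMem_zero π)⟩
    | cons a s ih =>
      intro hs
      obtain ⟨k, hk, h1⟩ := ih fun π hπ => hs π (Multiset.mem_cons_of_mem hπ)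
      obtain ⟨l, hl, h2⟩ := h a (hs a (Multiset.mem_cons_self a s)).1
        (hs a (Multiset.mem_cons_self a s)).2
      refine ⟨k * l, Nat.mul_pos hk hl, fun π hπ => ?_⟩
      rcases Multiset.mem_cons.1 hπ with h3 | h3
      · rw [h3]; exact fin_van_dvd (Dvd.intro_left k rfl) h2
      · exact fin_van_dvd (Dvd.intro l rfl) (h1 π h3)
  obtain ⟨k, hk, h1⟩ := key f fun π hπ =>
    ⟨(hf π hπ).irreducible, (Multiset.dvd_prod hπ).trans hfD.dvd⟩
  refine ⟨k, hk, fun π hπ hπD => ?_⟩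
  have hp : Prime π := UniqueFactorizationMonoid.irreducible_iff_prime.1 hπ
  obtain ⟨a, ha, hpa⟩ := hp.exists_mem_multiset_dvd (hπD.trans hfD.symm.dvd)
  have h2 : Associated π a := (hπ.dvd_irreducible_iff_associated (hf a ha).irreducible).1 hpa
  exact fin_van_assoc (h1 a ha) h2.symm.dvd

theorem crit_one (φ : MulAut (Fr n)) (θ : Fr n →* Zm m) (hθ : ∀ f, θ (φ f) = θ f)
    (h : ∀ π : (Laur m)[X], Irreducible π → π ∣ (foxMat θ φ).charpoly →
      ∃ k, 0 < k ∧ VanAt k π) : VRTFN (MT (Fr n) φ) := by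
  have := laur_dom m
  obtain ⟨k, hk, h1⟩ := common_order (foxMat θ φ).charpoly (Matrix.charpoly_monic _).ne_zero h
  exact ⟨Hk φ θ hθ k, Hk_index φ θ hθ k hk, rtfn_Hk φ θ hθ k hk h1⟩

theorem crit_two (φ : MulAut (Fr n)) (θ : Fr n →* Zm m) (hθ : ∀ f, θ (φ f) = θ f)
    (h : ∀ π : (Laur m)[X], Irreducible π → π ∣ (foxMat θ φ).charpoly → VanAt 1 π) :
    RTFN (MT (Fr n) φ) := by
  have h1 := rtfn_Hk φ θ hθ 1 one_pos h
  rw [Hk_one] at h1
  exact RTFN_of_inj (G' := (⊤ : Subgroup (MT (Fr n) φ))) Subgroup.topEquiv.symm.toMonoidHom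
    (MulEquiv.injective _) h1

theorem crit_three (φ : MulAut (Fr n)) (θ : Fr n →* Zm m) (hθ : ∀ f, θ (φ f) = θ f)
    (a b : Fr n) (hr : ∀ i j : ℤ, θ a ^ i * θ b ^ j = 1 → i = 0 ∧ j = 0)
    (q : (Laur m)[X]) (hq : (foxMat θ φ).charpoly = (X - 1) * q) (hirr : Irreducible q) :
    RTFN (MT (Fr n) φ) := by
  have := laur_dom m
  have := laur_ufd m
  refine crit_two φ θ hθ fun π hπ hd => ?_
  have hp : Prime π := UniqueFactorizationMonoid.irreducible_iff_prime.1 hπ
  rw [hq] at hd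
  rcases hp.dvd_or_dvd hd with h1 | h1
  · have hX : Irreducible (X - 1 : (Laur m)[X]) := by
      have := Polynomial.irreducible_X_sub_C (1 : Laur m)
      rwa [map_one] at this
    have h2 : Associated π (X - 1) := (hπ.dvd_irreducible_iff_associated hX).1 h1
    refine fin_van_assoc (π := X - 1) ⟨1, 1, fun z => one_pow 1, one_pow 1, ?_⟩ h2.symm.dvd
    rw [Polynomial.eval₂_sub, Polynomial.eval₂_X, Polynomial.eval₂_one, sub_self]
  · have h2 : Associated π q := (hπ.dvd_irreducible_iff_associated hirr).1 h1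
    exact fin_van_assoc (van_one θ φ hθ a b hr q hq) h2.symm.dvd

end final

end Pool.Agent.H8.AP
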