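import Mathlib

/-! # Lifting of generalized eigenvectors -/

set_option autoImplicit false

namespace Pool.Agent.H8.AP

theorem fit_lift {X : Type} [AddCommGroup X] [Module ℚ X] [FiniteDimensional ℚ X]
    (S : Module.End ℚ X) (Y : Submodule ℚ X) (hY : ∀ v ∈ Y, S v ∈ Y) (ε : X) (D : ℕ)
    (hε : (S ^ D) ε ∈ Y) : ∃ κ : X, (∃ N, (S ^ N) κ = 0) ∧ κ - ε ∈ Y := by
  have hYp : ∀ (a : ℕ), ∀ v ∈ Y, (S ^ a) v ∈ Y := by
    intro a
    induction a with
    | zero => intro v hv; simpa using hv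
    | succ a ih =>
      intro v hv
      rw [pow_succ', Module.End.mul_apply]
      exact hY _ (ih v hv)
  have hev := LinearMap.eventually_isCompl_ker_pow_range_pow S
  obtain ⟨N, hN, hND⟩ := (hev.and (Filter.eventually_ge_atTop D)).exists
  have hx : ε ∈ LinearMap.ker (S ^ N) ⊔ LinearMap.range (S ^ N) := by
    rw [hN.sup_eq_top]; exact Submodule.mem_top
  obtain ⟨κ, hκ, ι, hι, hsum⟩ := Submodule.mem_sup.1 hx
  have hκ0 : (S ^ N) κ = 0 := LinearMap.mem_ker.1 hκ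
  have hTι : (S ^ N) ι ∈ Y := by
    have h1 : (S ^ N) ι = (S ^ N) ε := by rw [← hsum, map_add, hκ0, zero_add]
    have h2 : (S ^ N) ε = (S ^ (N - D)) ((S ^ D) ε) := by
      rw [← Module.End.mul_apply, ← pow_add, Nat.sub_add_cancel hND]
    rw [h1, h2]
    exact hYp _ _ hε
  -- the operator on `Y ⊓ range`
  set Z : Submodule ℚ X := Y ⊓ LinearMap.range (S ^ N) with hZ
  have hst : ∀ v ∈ Z, (S ^ N) v ∈ Z := fun v hv =>
    ⟨hYp N v hv.1, LinearMap.mem_range_self _ v⟩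
  have hdisj : ∀ v, v ∈ LinearMap.range (S ^ N) → (S ^ N) v = 0 → v = 0 := by
    intro v hv h0
    have h1 : v ∈ LinearMap.ker (S ^ N) ⊓ LinearMap.range (S ^ N) := ⟨LinearMap.mem_ker.2 h0, hv⟩
    rw [hN.inf_eq_bot] at h1
    exact (Submodule.mem_bot ℚ).1 h1
  have hinj : Function.Injective ((S ^ N).restrict hst) := by
    rw [← LinearMap.ker_eq_bot, LinearMap.ker_eq_bot']
    rintro ⟨v, hv⟩ h0
    have h1 : (S ^ N) v = 0 := congrArg Subtype.val h0
    exact Subtype.ext (hdisj v hv.2 h1)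
  have hsurj := LinearMap.injective_iff_surjective.1 hinj
  obtain ⟨⟨z, hz⟩, hzz⟩ := hsurj ⟨(S ^ N) ι, hTι, LinearMap.mem_range_self _ ι⟩
  have hzι : (S ^ N) z = (S ^ N) ι := congrArg Subtype.val hzz
  have h3 : ι - z = 0 := hdisj _ ((LinearMap.range (S ^ N)).sub_mem hι hz.2)
    (by rw [map_sub, hzι, sub_self])
  refine ⟨κ, ⟨N, hκ0⟩, ?_⟩
  have h4 : κ - ε = -ι := by rw [← hsum]; abel
  rw [h4, sub_eq_zero.1 h3]
  exact Y.neg_mem hz.1

end Pool.Agent.H8.AP
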