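import Pool.Agent.H8.AP.Defs
import Pool.Agent.H11.FC.Unip

/-! # Detection of elements of the free group by unipotent modules of the mapping torus

`proj θ φ hθ : MT (Fr n) φ →* Zm m × Multiplicative ℤ`, `(f, t^i) ↦ (θ f, t^i)` (`SemidirectProduct.lift` or a direct `MonoidHom.mk'`; uses `θ (φ f) = θ f`).
`Hk` = preimage of the subgroup of `k`-th powers. `Hk_index`: the group `Zm m × Multiplicative ℤ` is finitely generated abelian, the subgroup of `k`-th powers has finite index
(e.g. it contains the kernel of the reduction to `(ZMod k)`-vectors, a map to a finite group: `Subgroup.index_ker`, `Subgroup.index_comap`...). `Hk_one`: clear.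
`det_proj`: for `g ∈ Hk` with `g.right ≠ 1` or `θ g.left ≠ 1`: `Q = Zm m × Multiplicative ℤ` is abelian and torsion-free, `f` = restriction of `proj`.
`det_mod`: `A : GMod φ V`, `V` finite-dimensional, so `A.T` is bijective. Units `F →* (Module.End ℚ V)ˣ` (`MonoidHom.toHomUnits A.ρ`) and `T` give by `SemidirectProduct.lift` a representation
`σ : MT (Fr n) φ →* (Module.End ℚ V)ˣ` (`T ρ(f) T⁻¹ = ρ(φ f)`, iterate for `zpowersHom`). On `Hk` it raises the flag `Fl`: for `g = (f, t^{k j})` with `f ∈ Kk θ k`: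
`T^k` maps `Fl i` bijectively onto `Fl i` (finite-dimensional, injective) and `T^k - 1` maps `Fl i` to `Fl (i+1)`; so does `T^{k j} - 1` for all `j : ℤ`; `ρ f` preserves `Fl` and
`ρ(f) T^{kj} - 1 = ρ(f) (T^{kj} - 1) + (ρ(f) - 1)`. Now `Pool.H11.FC.unip` for the group `Hk` (its `Representation ℚ G W` is `G →* Module.End ℚ W`), applied to the element
`⟨inl f, _⟩` which acts by `ρ f ≠ 1`. -/

set_option autoImplicit false

namespace Pool.Agent.H8.AP

open Pool.H11.FC

/-- The elements of the free group with `θ f` a `k`-th power. -/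
def Kk {n m : ℕ} (θ : Fr n →* Zm m) (k : ℕ) : Subgroup (Fr n) :=
  (powMonoidHom k : Zm m →* Zm m).range.comap θ

/-- the automorphisms which preserve `θ` -/
private def reph_S {n m : ℕ} (θ : Fr n →* Zm m) : Subgroup (MulAut (Fr n)) where
  carrier := {α | ∀ f, θ (α f) = θ f}
  mul_mem' := by
    intro α β hα hβ f
    rw [MulAut.mul_apply, hα, hβ]
  one_mem' := fun _ => rfl
  inv_mem' := by
    intro α hα f
    have h1 := hα (α⁻¹ f)
    rw [MulAut.apply_inv_self] at h1
    exact h1.symm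

private theorem reph_theta {n m : ℕ} {φ : MulAut (Fr n)} {θ : Fr n →* Zm m}
    (hθ : ∀ f, θ (φ f) = θ f) (i : Multiplicative ℤ) (f : Fr n) :
    θ ((zpowersHom (MulAut (Fr n)) φ i) f) = θ f := by
  have h1 : φ ∈ reph_S θ := hθ
  have h2 : zpowersHom (MulAut (Fr n)) φ i ∈ reph_S θ := by
    rw [zpowersHom_apply]
    exact (reph_S θ).zpow_mem h1 _
  exact h2 f

/-- The projection of the mapping torus. -/
private def reph_proj {n m : ℕ} (φ : MulAut (Fr n)) (θ : Fr n →* Zm m)
    (hθ : ∀ f, θ (φ f) = θ f) : MT (Fr n) φ →* Zm m × Multiplicative ℤ where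
  toFun := fun g => (θ g.left, g.right)
  map_one' := by
    rw [SemidirectProduct.one_left, SemidirectProduct.one_right, map_one]
    rfl
  map_mul' := by
    intro a b
    rw [SemidirectProduct.mul_left, SemidirectProduct.mul_right, map_mul, reph_theta hθ]
    rfl

/-- The elements of the mapping torus with both coordinates `k`-th powers. -/
def Hk {n m : ℕ} (φ : MulAut (Fr n)) (θ : Fr n →* Zm m) (hθ : ∀ f, θ (φ f) = θ f) (k : ℕ) :
    Subgroup (MT (Fr n) φ) where
  carrier := {g | (∃ z : Zm m, θ g.left = z ^ k) ∧ ∃ i : Multiplicative ℤ, g.right = i ^ k}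
  mul_mem' := by
    rintro a b ⟨⟨z, hz⟩, i, hi⟩ ⟨⟨w, hw⟩, j, hj⟩
    refine ⟨⟨z * w, ?_⟩, i * j, ?_⟩
    · rw [SemidirectProduct.mul_left, map_mul, reph_theta hθ, hz, hw, mul_pow]
    · rw [SemidirectProduct.mul_right, hi, hj, mul_pow]
  one_mem' := by
    refine ⟨⟨1, ?_⟩, 1, ?_⟩
    · rw [SemidirectProduct.one_left, map_one, one_pow]
    · rw [SemidirectProduct.one_right, one_pow]
  inv_mem' := by
    rintro a ⟨⟨z, hz⟩, i, hi⟩
    refine ⟨⟨z⁻¹, ?_⟩, i⁻¹, ?_⟩
    · have h1 := congrArg Prod.fst (map_inv (reph_proj φ θ hθ) a)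
      have h2 : θ (a⁻¹).left = (θ a.left)⁻¹ := h1
      rw [h2, hz, inv_pow]
    · rw [SemidirectProduct.inv_right, hi, inv_pow]

/-- reduction modulo `k` -/
private def reph_red (m k : ℕ) : Zm m × Multiplicative ℤ →*
    Multiplicative (Fin m → ZMod k) × Multiplicative (ZMod k) :=
  MonoidHom.prodMap (AddMonoidHom.toMultiplicative ((Int.castAddHom (ZMod k)).compLeft (Fin m)))
    (AddMonoidHom.toMultiplicative (Int.castAddHom (ZMod k)))

theorem Hk_index {n m : ℕ} (φ : MulAut (Fr n)) (θ : Fr n →* Zm m) (hθ : ∀ f, θ (φ f) = θ f)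
    (k : ℕ) (hk : 0 < k) : (Hk φ θ hθ k).index ≠ 0 := by
  have : NeZero k := ⟨hk.ne'⟩
  have hfin : Finite (Multiplicative (Fin m → ZMod k) × Multiplicative (ZMod k)) := by
    have h1 : Finite (Multiplicative (Fin m → ZMod k)) :=
      inferInstanceAs (Finite (Fin m → ZMod k))
    have h2 : Finite (Multiplicative (ZMod k)) := inferInstanceAs (Finite (ZMod k))
    exact inferInstance
  set r := (reph_red m k).comp (reph_proj φ θ hθ) with hr
  have hle : r.ker ≤ Hk φ θ hθ k := by
    intro g hg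
    rw [MonoidHom.mem_ker] at hg
    have h1 : ∀ j, (((θ g.left).toAdd j : ℤ) : ZMod k) = 0 := fun j =>
      congrFun (congrArg Multiplicative.toAdd (congrArg Prod.fst hg)) j
    have h2 : ((g.right.toAdd : ℤ) : ZMod k) = 0 :=
      congrArg Multiplicative.toAdd (congrArg Prod.snd hg)
    refine ⟨⟨Multiplicative.ofAdd fun j => (θ g.left).toAdd j / k, ?_⟩,
      Multiplicative.ofAdd (g.right.toAdd / k), ?_⟩
    · apply Multiplicative.toAdd.injective
      funext j
      have h3 : (k : ℤ) ∣ (θ g.left).toAdd j := (ZMod.intCast_zmod_eq_zero_iff_dvd _ k).1 (h1 j)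
      rw [toAdd_pow, toAdd_ofAdd, Pi.smul_apply, nsmul_eq_mul, Int.mul_ediv_cancel' h3]
    · apply Multiplicative.toAdd.injective
      have h3 : (k : ℤ) ∣ g.right.toAdd := (ZMod.intCast_zmod_eq_zero_iff_dvd _ k).1 h2
      rw [toAdd_pow, toAdd_ofAdd, nsmul_eq_mul, Int.mul_ediv_cancel' h3]
  have h3 : r.ker.FiniteIndex := inferInstance
  have h4 : (Hk φ θ hθ k).FiniteIndex := Subgroup.finiteIndex_of_le hle
  exact h4.index_ne_zero

theorem Hk_one {n m : ℕ} (φ : MulAut (Fr n)) (θ : Fr n →* Zm m) (hθ : ∀ f, θ (φ f) = θ f) :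
    Hk φ θ hθ 1 = ⊤ := by
  rw [eq_top_iff]
  intro g _
  exact ⟨⟨θ g.left, (pow_one _).symm⟩, g.right, (pow_one _).symm⟩

theorem det_proj {n m : ℕ} (φ : MulAut (Fr n)) (θ : Fr n →* Zm m) (hθ : ∀ f, θ (φ f) = θ f)
    (k : ℕ) (g : Hk φ θ hθ k) (hg : g.1.right ≠ 1 ∨ θ g.1.left ≠ 1) :
    ∃ (Q : Type) (_ : Group Q) (f : Hk φ θ hθ k →* Q),
      Group.IsNilpotent Q ∧ (∀ q : Q, ∀ l : ℕ, 0 < l → q ^ l = 1 → q = 1) ∧ f g ≠ 1 := by
  refine ⟨Zm m × Multiplicative ℤ, inferInstance,
    (reph_proj φ θ hθ).comp (Hk φ θ hθ k).subtype, inferInstance, ?_, ?_⟩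
  · intro q l hl h
    have h1 := congrArg Prod.fst h
    have h2 := congrArg Prod.snd h
    rw [Prod.pow_fst] at h1
    rw [Prod.pow_snd] at h2
    refine Prod.ext ?_ ?_
    · apply Multiplicative.toAdd.injective
      funext j
      have h3 : (l : ℤ) * q.1.toAdd j = 0 := by
        have h4 := congrFun (congrArg Multiplicative.toAdd h1) j
        rw [toAdd_pow, Pi.smul_apply, nsmul_eq_mul] at h4
        exact h4
      rcases mul_eq_zero.1 h3 with h4 | h4
      · exact absurd (by exact_mod_cast h4) hl.ne'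
      · exact h4
    · apply Multiplicative.toAdd.injective
      have h3 : (l : ℤ) * q.2.toAdd = 0 := by
        have h4 := congrArg Multiplicative.toAdd h2
        rw [toAdd_pow, nsmul_eq_mul] at h4
        exact h4
      rcases mul_eq_zero.1 h3 with h4 | h4
      · exact absurd (by exact_mod_cast h4) hl.ne'
      · exact h4
  · intro h
    have h1 : θ g.1.left = 1 := congrArg Prod.fst h
    have h2 : g.1.right = 1 := congrArg Prod.snd h
    rcases hg with h3 | h3
    · exact h3 h2
    · exact h3 h1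

/-- the units which raise the flag -/
private def reph_R {V : Type} [AddCommGroup V] [Module ℚ V] (Fl : ℕ → Submodule ℚ V) (l : ℕ)
    (hanti : Antitone Fl) (hbot : Fl l = ⊥) : Subgroup (Module.End ℚ V)ˣ where
  carrier := {q | ∀ (i : ℕ) (v : V), v ∈ Fl i → (q : Module.End ℚ V) v - v ∈ Fl (i + 1)}
  mul_mem' := by
    intro p q hp hq i v hv
    show (p : Module.End ℚ V) ((q : Module.End ℚ V) v) - v ∈ Fl (i + 1)
    have h1 := hq i v hv
    have h2 := hanti (Nat.le_succ (i + 1)) (hp (i + 1) _ h1)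
    have h3 := (Fl (i + 1)).add_mem ((Fl (i + 1)).add_mem h2 h1) (hp i v hv)
    have h4 : (p : Module.End ℚ V) ((q : Module.End ℚ V) v) - v =
        (p : Module.End ℚ V) ((q : Module.End ℚ V) v - v) - ((q : Module.End ℚ V) v - v) +
          ((q : Module.End ℚ V) v - v) + ((p : Module.End ℚ V) v - v) := by
      rw [map_sub]
      abel
    rw [h4]
    exact h3
  one_mem' := by
    intro i v _
    show v - v ∈ Fl (i + 1)
    rw [sub_self]
    exact (Fl (i + 1)).zero_mem
  inv_mem' := by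
    intro q hq
    have key : ∀ (d i : ℕ), l ≤ i + d → ∀ v ∈ Fl i,
        ((q⁻¹ : (Module.End ℚ V)ˣ) : Module.End ℚ V) v - v ∈ Fl (i + 1) := by
      intro d
      induction d with
      | zero =>
        intro i hi v hv
        have h1 := hanti (show l ≤ i from hi) hv
        rw [hbot, Submodule.mem_bot] at h1
        rw [h1, map_zero, sub_zero]
        exact (Fl (i + 1)).zero_mem
      | succ d ih =>
        intro i hi v hv
        have h1 : v - (q : Module.End ℚ V) v ∈ Fl (i + 1) := by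
          have h2 := (Fl (i + 1)).neg_mem (hq i v hv)
          rwa [neg_sub] at h2
        have h2 := ih (i + 1) (by omega) _ h1
        have h3 := (Fl (i + 1)).add_mem (hanti (Nat.le_succ (i + 1)) h2) h1
        rw [sub_add_cancel, map_sub] at h3
        have h4 : ((q⁻¹ : (Module.End ℚ V)ˣ) : Module.End ℚ V) ((q : Module.End ℚ V) v) = v := by
          show ((q⁻¹ * q : (Module.End ℚ V)ˣ) : Module.End ℚ V) v = v
          rw [inv_mul_cancel]
          rfl
        rw [h4] at h3
        exact h3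
    intro i v hv
    exact key l i (by omega) v hv

theorem det_mod {n m : ℕ} (φ : MulAut (Fr n)) (θ : Fr n →* Zm m) (hθ : ∀ f, θ (φ f) = θ f)
    (k : ℕ) {V : Type} [AddCommGroup V] [Module ℚ V] [FiniteDimensional ℚ V] (A : GMod φ V)
    (Fl : ℕ → Submodule ℚ V) (l : ℕ) (hA : Uni A (Kk θ k) k Fl l) (f : Fr n)
    (hf : A.ρ f ≠ 1) (g : Hk φ θ hθ k) (hg : g.1 = SemidirectProduct.inl f) :
    ∃ (Q : Type) (_ : Group Q) (f : Hk φ θ hθ k →* Q),
      Group.IsNilpotent Q ∧ (∀ q : Q, ∀ l : ℕ, 0 < l → q ^ l = 1 → q = 1) ∧ f g ≠ 1 := by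
  obtain ⟨u, hu⟩ : IsUnit A.T := (Module.End.isUnit_iff _).2
    ⟨A.inj, LinearMap.injective_iff_surjective.1 A.inj⟩
  set f₁ : Fr n →* (Module.End ℚ V)ˣ := MonoidHom.toHomUnits A.ρ with hf₁
  have hf₁v : ∀ x, ((f₁ x : (Module.End ℚ V)ˣ) : Module.End ℚ V) = A.ρ x := fun x => rfl
  set f₂ : Multiplicative ℤ →* (Module.End ℚ V)ˣ := zpowersHom (Module.End ℚ V)ˣ u with hf₂
  have hone : ∀ x, f₁ (φ x) = u * f₁ x * u⁻¹ := by
    intro x
    rw [eq_mul_inv_iff_mul_eq]
    apply Units.ext
    refine LinearMap.ext fun v => ?_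
    rw [Units.val_mul, Units.val_mul, hf₁v, hf₁v, hu]
    exact (A.comm x v).symm
  -- the exponents for which the relation holds
  let S : Subgroup (Multiplicative ℤ) :=
    { carrier := {i | ∀ x, f₁ (zpowersHom (MulAut (Fr n)) φ i x) = f₂ i * f₁ x * (f₂ i)⁻¹}
      mul_mem' := by
        intro i j hi hj x
        rw [map_mul, MulAut.mul_apply, hi, hj, map_mul, mul_inv_rev]
        simp only [mul_assoc]
      one_mem' := by
        intro x
        rw [map_one, map_one, MulAut.one_apply, one_mul, inv_one, mul_one]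
      inv_mem' := by
        intro i hi x
        have h1 := hi ((zpowersHom (MulAut (Fr n)) φ i)⁻¹ x)
        rw [MulAut.apply_inv_self] at h1
        rw [map_inv, map_inv, h1, inv_inv]
        group }
  have hS : ∀ i, i ∈ S := by
    have h1 : (Multiplicative.ofAdd 1 : Multiplicative ℤ) ∈ S := by
      intro x
      have h2 : zpowersHom (MulAut (Fr n)) φ (Multiplicative.ofAdd 1) = φ := by
        rw [zpowersHom_apply, toAdd_ofAdd, zpow_one]
      have h3 : f₂ (Multiplicative.ofAdd 1) = u := by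
        rw [hf₂, zpowersHom_apply, toAdd_ofAdd, zpow_one]
      rw [h2, h3]
      exact hone x
    intro i
    have h2 := S.zpow_mem h1 i.toAdd
    have h3 : (Multiplicative.ofAdd 1 : Multiplicative ℤ) ^ i.toAdd = i := by
      apply Multiplicative.toAdd.injective
      rw [toAdd_zpow, toAdd_ofAdd, smul_eq_mul, mul_one]
    rwa [h3] at h2
  set σ : MT (Fr n) φ →* (Module.End ℚ V)ˣ := SemidirectProduct.lift f₁ f₂ (by
    intro i
    refine MonoidHom.ext fun x => ?_
    exact hS i x) with hσ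
  set R := reph_R Fl l hA.anti hA.bot with hR
  have huR : u ^ k ∈ R := by
    intro i v hv
    rw [Units.val_pow_eq_pow_val, hu]
    exact hA.raiseT i v hv
  have hσR : ∀ x : Hk φ θ hθ k, σ x.1 ∈ R := by
    rintro ⟨x, ⟨z, hz⟩, j, hj⟩
    have h1 : σ x = f₁ x.left * f₂ x.right := rfl
    show σ x ∈ R
    rw [h1]
    refine R.mul_mem ?_ ?_
    · intro i v hv
      exact hA.raiseF x.left ⟨z, hz.symm⟩ i v hv
    · rw [hj, map_pow, hf₂, zpowersHom_apply, ← zpow_natCast, ← zpow_mul, mul_comm, zpow_mul,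
        zpow_natCast]
      exact R.zpow_mem huR _
  refine unip ((Units.coeHom (Module.End ℚ V)).comp (σ.comp (Hk φ θ hθ k).subtype)) Fl l
    hA.anti hA.top hA.bot ?_ g ?_
  · intro x i v hv
    exact hσR x i v hv
  · intro h
    apply hf
    have h1 : ((σ g.1 : (Module.End ℚ V)ˣ) : Module.End ℚ V) = 1 := h
    rw [hg, hσ, SemidirectProduct.lift_inl, hf₁v] at h1
    exact h1

end Pool.Agent.H8.AP
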