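import Pool.Agent.H8.AP.Defs

/-! # Finitely many elements of a basis of the kernel (Nielsen-Schreier)

PROOF. `θ.ker` is a free group: `subgroupIsFreeOfIsFree` (instance `IsFreeGroup θ.ker`); let `X = IsFreeGroup.Generators θ.ker` and
`e : θ.ker ≃* FreeGroup X` (`IsFreeGroup.toFreeGroup`). For `f ∈ ker θ`, `f ≠ 1`, `g = e f ≠ 1` is a product of letters of a finite subset `I` of `X`
(e.g. induction on words: the elements of `FreeGroup X` in the range of `FreeGroup.map (Subtype.val : I → X)` for some finite set `I`; or use the letters of `toWord`).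
`y i = e.symm (FreeGroup.of i)`, `γ` = the element of `FreeGroup I` with `FreeGroup.map Subtype.val γ = g`. For `c : I → ℚ` define
`χ = (FreeGroup.lift c').comp e`, `c' x = ofAdd (c x)` if `x ∈ I`, else `1`. -/

set_option autoImplicit false

namespace Pool.Agent.H8.AP

private theorem schr_fin {X : Type} (g : FreeGroup X) :
    ∃ (I : Finset X) (γ : FreeGroup I), FreeGroup.map (Subtype.val : I → X) γ = g := by
  classical
  induction g using FreeGroup.induction_on with
  | C1 => exact ⟨∅, 1, map_one _⟩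
  | of x => exact ⟨{x}, FreeGroup.of ⟨x, Finset.mem_singleton_self x⟩, FreeGroup.map.of⟩
  | inv_of x _ =>
    exact ⟨{x}, (FreeGroup.of ⟨x, Finset.mem_singleton_self x⟩)⁻¹, by
      rw [map_inv, FreeGroup.map.of]⟩
  | mul a b ha hb =>
    obtain ⟨I, γ, hγ⟩ := ha
    obtain ⟨I', γ', hγ'⟩ := hb
    refine ⟨I ∪ I', FreeGroup.map (fun i : I => (⟨i.1, Finset.mem_union_left _ i.2⟩ : ↥(I ∪ I'))) γ *
      FreeGroup.map (fun i : I' => (⟨i.1, Finset.mem_union_right _ i.2⟩ : ↥(I ∪ I'))) γ', ?_⟩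
    rw [map_mul, FreeGroup.map.comp, FreeGroup.map.comp, ← hγ, ← hγ']
    rfl

theorem exists_schreier {n m : ℕ} (θ : Fr n →* Zm m) (f : Fr n) (hf : θ f = 1) (hf1 : f ≠ 1) :
    ∃ (I : Type) (_ : Fintype I) (y : I → Fr n) (hy : ∀ i, θ (y i) = 1) (γ : FreeGroup I),
      (∀ c : I → ℚ, ∃ χ : θ.ker →* Multiplicative ℚ,
        ∀ i, χ ⟨y i, θ.mem_ker.2 (hy i)⟩ = Multiplicative.ofAdd (c i)) ∧
      γ ≠ 1 ∧ FreeGroup.lift y γ = f := by
  classical
  have hfree : IsFreeGroup θ.ker := subgroupIsFreeOfIsFree θ.ker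
  let e := IsFreeGroup.toFreeGroup θ.ker
  obtain ⟨I, γ, hγ⟩ := schr_fin (e ⟨f, θ.mem_ker.2 hf⟩)
  have hy : ∀ i : I, θ ((e.symm (FreeGroup.of i.1)).1) = 1 := fun i =>
    θ.mem_ker.1 (e.symm (FreeGroup.of i.1)).2
  refine ⟨I, inferInstance, fun i => (e.symm (FreeGroup.of i.1)).1, hy, γ, ?_, ?_, ?_⟩
  · intro c
    refine ⟨(FreeGroup.lift fun x => if h : x ∈ I then Multiplicative.ofAdd (c ⟨x, h⟩) else
      1).comp e.toMonoidHom, fun i => ?_⟩
    change (FreeGroup.lift fun x => if h : x ∈ I then Multiplicative.ofAdd (c ⟨x, h⟩) else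
      (1 : Multiplicative ℚ)) (e (e.symm (FreeGroup.of i.1))) = _
    rw [MulEquiv.apply_symm_apply, FreeGroup.lift_apply_of, dif_pos i.2]
  · rintro rfl
    rw [map_one] at hγ
    have h1 : (⟨f, θ.mem_ker.2 hf⟩ : θ.ker) = 1 := by
      rw [← e.map_eq_one_iff, ← hγ]
    exact hf1 (congrArg Subtype.val h1)
  · have h1 : FreeGroup.lift (fun i : I => (e.symm (FreeGroup.of i.1)).1) =
        (θ.ker.subtype.comp e.symm.toMonoidHom).comp (FreeGroup.map (Subtype.val : I → _)) := by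
      ext i
      rw [FreeGroup.lift_apply_of]
      change _ = (e.symm (FreeGroup.map (Subtype.val : I → _) (FreeGroup.of i))).1
      rw [FreeGroup.map.of]
    rw [h1]
    change (e.symm (FreeGroup.map (Subtype.val : I → _) γ)).1 = f
    rw [hγ, MulEquiv.symm_apply_apply]

end Pool.Agent.H8.AP
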