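import Pool.Agent.H8.AP.Ufd
import Pool.Agent.H8.AP.Adj
import Pool.Agent.H8.AP.FinQ

/-! # Separation

Let `X` act on `M = (Fin n → Laur m)` by `v ↦ v ᵥ* P`: `M` becomes an `(Laur m)[X]`-module (e.g. `Module.AEval'` of the `Laur m`-linear map `Matrix.toLin`/`vecMulLinear P`; or define your own
type synonym and module structure with `u • v = v ᵥ* aeval P u`; note `aeval P` is a ring hom to matrices, `v ᵥ* (A * B) = (v ᵥ* A) ᵥ* B` and the image is commutative). `M` is finitely generated.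
`Y i = Ik m k ^ i • ⊤` (as a `Laur m`-submodule of `Fin n → Laur m`).
(1) `⨅ Y i = ⊥`: Krull, `Ideal.mem_iInf_smul_pow_eq_bot_iff` (noetherian ring `(Laur m)[X]`, finite module): `v` in the intersection gives `r ∈ Ik m k` with `r • v = v`, so
`u • v = 0`, `u = 1 - r`. For `χ, τ` with `χ z ^ k = 1`, `τ ^ k = 1` the evaluation kills `Ik m k`, so `u` has value `1`: no irreducible factor of `P.charpoly` divides `u`
(`VanAt k π`, `π ∣ u` would give value `0`). If `charpoly ≠ 0` (it is monic) then `IsRelPrime u charpoly` (a common divisor `d` that is not a unit has an irreducible factor, `WfDvdMonoid`),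
`u ≠ 0`: if `u = 0` then `1 ∈ Ik m k`; but the evaluation at `χ = 1, τ = 1` kills `Ik m k` and not `1`. So `adj_inj` gives `v = 0`.
(2) a finite linearly independent family stays independent modulo `Y j` for some `j`: the subspaces `S ∩ Y i` of the finite-dimensional span `S` decrease, so they are eventually constant, with
intersection `0`; so `S ∩ Y j = 0` for some `j`.
(3) the remaining properties are immediate from `Ik`. -/

set_option autoImplicit false

namespace Pool.Agent.H8.AP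

open Polynomial

private lemma sep_pow_zero {R : Type} [CommRing R] (I : Ideal R) {M : Type} [AddCommGroup M] [Module R M] :
    I ^ 0 • (⊤ : Submodule R M) = ⊤ := by
  rw [pow_zero, Ideal.one_eq_top, Submodule.top_smul]

private lemma sep_pow_succ {R : Type} [CommRing R] (I : Ideal R) {M : Type} [AddCommGroup M] [Module R M] (i : ℕ) :
    I ^ (i + 1) • (⊤ : Submodule R M) = I • (I ^ i • (⊤ : Submodule R M)) := by
  rw [pow_succ', Submodule.mul_smul]

/-- the operator of the matrix -/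
private noncomputable def sepφ {n m : ℕ} (P : Matrix (Fin n) (Fin n) (Laur m)) : Module.End (Laur m) (Fin n → Laur m) :=
  Matrix.vecMulLinear P

private lemma sepφ_apply {n m : ℕ} (P : Matrix (Fin n) (Fin n) (Laur m)) (v : Fin n → Laur m) : sepφ P v = Matrix.vecMul v P := rfl

private lemma sepφ_pow {n m : ℕ} (P : Matrix (Fin n) (Fin n) (Laur m)) (v : Fin n → Laur m) (k : ℕ) :
    (sepφ P ^ k) v = Matrix.vecMul v (P ^ k) := by
  induction k with
  | zero => simp
  | succ k ih =>
    rw [pow_succ', Module.End.mul_apply, ih, sepφ_apply, Matrix.vecMul_vecMul, pow_succ]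

private lemma sep_aeval {n m : ℕ} (P : Matrix (Fin n) (Fin n) (Laur m)) (v : Fin n → Laur m) (u : (Laur m)[X]) :
    aeval (sepφ P) u v = Matrix.vecMul v (aeval P u) := by
  induction u using Polynomial.induction_on' with
  | add p q hp hq => rw [map_add, map_add, LinearMap.add_apply, hp, hq, Matrix.vecMul_add]
  | monomial k a =>
    rw [aeval_monomial, aeval_monomial, Module.End.mul_apply, sepφ_pow]
    rw [Module.algebraMap_end_apply, Algebra.algebraMap_eq_smul_one, smul_mul_assoc, one_mul, Matrix.vecMul_smul]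

/-- the module over the polynomial ring -/
private noncomputable abbrev sepM {n m : ℕ} (P : Matrix (Fin n) (Fin n) (Laur m)) : Type := Module.AEval' (sepφ P)

private noncomputable def sepof {n m : ℕ} (P : Matrix (Fin n) (Fin n) (Laur m)) : (Fin n → Laur m) ≃ₗ[Laur m] sepM P :=
  Module.AEval'.of (sepφ P)

private lemma sepof_smul {n m : ℕ} (P : Matrix (Fin n) (Fin n) (Laur m)) (v : Fin n → Laur m) (u : (Laur m)[X]) :
    u • sepof P v = sepof P (Matrix.vecMul v (aeval P u)) := by
  rw [← sep_aeval]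
  exact (Module.AEval.of_aeval_smul (sepφ P) u v).symm

/-- the filtration -/
private noncomputable def sepY {n m : ℕ} (P : Matrix (Fin n) (Fin n) (Laur m)) (k i : ℕ) : Submodule (Laur m) (Fin n → Laur m) :=
  ((Ik m k ^ i • (⊤ : Submodule (Laur m)[X] (sepM P))).restrictScalars (Laur m)).comap (sepof P).toLinearMap

private lemma mem_sepY {n m : ℕ} (P : Matrix (Fin n) (Fin n) (Laur m)) (k i : ℕ) (v : Fin n → Laur m) :
    v ∈ sepY P k i ↔ sepof P v ∈ (Ik m k ^ i • (⊤ : Submodule (Laur m)[X] (sepM P))) := Iff.rfl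

private lemma sepY_succ {n m : ℕ} (P : Matrix (Fin n) (Fin n) (Laur m)) (k i : ℕ) {v : Fin n → Laur m} (hv : v ∈ sepY P k i)
    {u : (Laur m)[X]} (hu : u ∈ Ik m k) : Matrix.vecMul v (aeval P u) ∈ sepY P k (i + 1) := by
  have h1 := sep_pow_succ (Ik m k) (M := sepM P) i
  rw [mem_sepY, ← sepof_smul, h1]
  exact Submodule.smul_mem_smul hu hv

private lemma sepY_fin {n m : ℕ} (P : Matrix (Fin n) (Fin n) (Laur m)) (k i : ℕ) (hk : 0 < k) :
    FiniteDimensional ℚ ((Fin n → Laur m) ⧸ sepY P k i) := by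
  letI : Module ℚ (sepM P) := Module.compHom _ (algebraMap ℚ (Laur m)[X])
  haveI : IsScalarTower ℚ (Laur m)[X] (sepM P) := ⟨fun a b c => by
    change (a • b) • c = (algebraMap ℚ (Laur m)[X] a) • (b • c)
    rw [smul_smul, Algebra.smul_def]⟩
  haveI := fin_mod m k i hk (M := sepM P)
  have hadd : ∀ a : ℚ, ∀ v : Fin n → Laur m, sepof P (a • v) = a • sepof P v := by
    intro a v
    change sepof P (a • v) = (algebraMap ℚ (Laur m)[X] a) • sepof P v
    rw [sepof_smul]
    congr 1
    rw [IsScalarTower.algebraMap_apply ℚ (Laur m) (Laur m)[X], Polynomial.algebraMap_eq, aeval_C, Algebra.algebraMap_eq_smul_one,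
      Matrix.vecMul_smul, Matrix.vecMul_one]
    exact (algebraMap_smul (Laur m) a v).symm
  set N : Submodule (Laur m)[X] (sepM P) := Ik m k ^ i • ⊤ with hN
  set f : sepM P →ₗ[ℚ] (Fin n → Laur m) ⧸ sepY P k i :=
    { toFun := fun x => Submodule.Quotient.mk ((sepof P).symm x)
      map_add' := fun x y => by rw [map_add, Submodule.Quotient.mk_add]
      map_smul' := fun a x => by
        obtain ⟨v, rfl⟩ := (sepof P).surjective x
        rw [← hadd, LinearEquiv.symm_apply_apply, LinearEquiv.symm_apply_apply, RingHom.id_apply]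
        rfl } with hf
  have hker : N.restrictScalars ℚ ≤ LinearMap.ker f := by
    intro x hx
    rw [LinearMap.mem_ker]
    change (Submodule.Quotient.mk ((sepof P).symm x) : (Fin n → Laur m) ⧸ sepY P k i) = 0
    rw [Submodule.Quotient.mk_eq_zero, mem_sepY, LinearEquiv.apply_symm_apply]
    exact hx
  set g : (sepM P ⧸ N) →ₗ[ℚ] (Fin n → Laur m) ⧸ sepY P k i :=
    { toFun := fun x => Submodule.liftQ (N.restrictScalars ℚ) f hker x
      map_add' := fun x y => map_add (Submodule.liftQ (N.restrictScalars ℚ) f hker) x y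
      map_smul' := fun a x => by
        obtain ⟨y, rfl⟩ := Submodule.Quotient.mk_surjective _ x
        exact map_smul (Submodule.liftQ (N.restrictScalars ℚ) f hker) a (Submodule.Quotient.mk y) } with hg
  refine Module.Finite.of_surjective g ?_
  intro y
  obtain ⟨v, rfl⟩ := Submodule.Quotient.mk_surjective _ y
  refine ⟨Submodule.Quotient.mk (sepof P v), ?_⟩
  change (Submodule.Quotient.mk ((sepof P).symm (sepof P v)) : (Fin n → Laur m) ⧸ sepY P k i) = _
  rw [LinearEquiv.symm_apply_apply]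

/-- the evaluations kill the ideal -/
private lemma sep_ev {m k : ℕ} {χ : Zm m →* ℂ} {τ : ℂ} (hχ : ∀ z, χ z ^ k = 1) (hτ : τ ^ k = 1) {r : (Laur m)[X]} (hr : r ∈ Ik m k) :
    Polynomial.eval₂ (MonoidAlgebra.lift ℚ ℂ (Zm m) χ : Laur m →+* ℂ) τ r = 0 := by
  set ev : (Laur m)[X] →+* ℂ := Polynomial.eval₂RingHom (MonoidAlgebra.lift ℚ ℂ (Zm m) χ : Laur m →+* ℂ) τ with hev
  have h1 : Ik m k ≤ RingHom.ker ev := by
    rw [Ik, sup_le_iff, Ideal.span_le, Ideal.span_le]
    constructor
    · rintro _ ⟨z, rfl⟩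
      simp only [SetLike.mem_coe, RingHom.mem_ker, map_sub, map_pow, map_one]
      have : ev (C (mono z)) = χ z := by
        rw [hev, Polynomial.coe_eval₂RingHom, Polynomial.eval₂_C]
        exact MonoidAlgebra.lift_of _ _
      rw [this, hχ z, sub_self]
    · rintro _ rfl
      simp only [SetLike.mem_coe, RingHom.mem_ker, map_sub, map_pow, map_one]
      have : ev X = τ := by
        rw [hev, Polynomial.coe_eval₂RingHom, Polynomial.eval₂_X]
      rw [this, hτ, sub_self]
  exact h1 hr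

private lemma sepY_inf {n m : ℕ} (P : Matrix (Fin n) (Fin n) (Laur m)) (k : ℕ)
    (h : ∀ π : (Laur m)[X], Irreducible π → π ∣ P.charpoly → VanAt k π) (v : Fin n → Laur m) (hv : ∀ i, v ∈ sepY P k i) : v = 0 := by
  haveI := laur_dom m
  haveI := laur_noeth m
  haveI := laur_ufd m
  have h1 : sepof P v ∈ (⨅ i : ℕ, Ik m k ^ i • (⊤ : Submodule (Laur m)[X] (sepM P))) := by
    rw [Submodule.mem_iInf]
    exact hv
  rw [Ideal.mem_iInf_smul_pow_eq_bot_iff] at h1
  obtain ⟨⟨r, hr⟩, h2⟩ := h1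
  have h2' : r • sepof P v = sepof P v := h2
  have h3 : Matrix.vecMul v (aeval P (1 - r)) = 0 := by
    apply (sepof P).injective
    rw [← sepof_smul, map_zero, sub_smul, one_smul, h2', sub_self]
  have hev : ∀ (χ : Zm m →* ℂ) (τ : ℂ), (∀ z, χ z ^ k = 1) → τ ^ k = 1 →
      Polynomial.eval₂ (MonoidAlgebra.lift ℚ ℂ (Zm m) χ : Laur m →+* ℂ) τ (1 - r) = 1 := by
    intro χ τ hχ hτ
    rw [Polynomial.eval₂_sub, sep_ev hχ hτ hr, Polynomial.eval₂_one, sub_zero]
  refine adj_inj P (1 - r) ?_ ?_ v h3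
  · intro h4
    have h5 := hev 1 1 (fun z => by simp) (by simp)
    rw [h4, Polynomial.eval₂_zero] at h5
    exact zero_ne_one h5
  · intro d hd1 hd2
    by_contra hd
    have hc : P.charpoly ≠ 0 := P.charpoly_monic.ne_zero
    have hd0 : d ≠ 0 := fun h0 => hc (zero_dvd_iff.mp (h0 ▸ hd2))
    obtain ⟨π, hπ, hπd⟩ := WfDvdMonoid.exists_irreducible_factor hd hd0
    obtain ⟨χ, τ, hχ, hτ, h6⟩ := h π hπ (hπd.trans hd2)
    obtain ⟨q, hq⟩ := hπd.trans hd1
    have h7 := hev χ τ hχ hτ
    rw [hq, Polynomial.eval₂_mul, h6, zero_mul] at h7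
    exact zero_ne_one h7

private lemma sep_stable {V : Type} [AddCommGroup V] [Module ℚ V] (S : Submodule ℚ V) [FiniteDimensional ℚ S]
    (Z : ℕ → Submodule ℚ V) (hZ : Antitone Z) (h0 : ∀ v, (∀ i, v ∈ Z i) → v = 0) : ∃ j, Disjoint S (Z j) := by
  obtain ⟨j, hj⟩ : ∃ j, ∀ i, Module.finrank ℚ (S ⊓ Z j : Submodule ℚ V) ≤ Module.finrank ℚ (S ⊓ Z i : Submodule ℚ V) := by
    obtain ⟨_, ⟨j, rfl⟩, hj⟩ := WellFounded.has_min (wellFounded_lt (α := ℕ))
      (Set.range fun i => Module.finrank ℚ (S ⊓ Z i : Submodule ℚ V)) ⟨_, 0, rfl⟩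
    exact ⟨j, fun i => not_lt.mp (hj _ ⟨i, rfl⟩)⟩
  refine ⟨j, ?_⟩
  rw [disjoint_iff]
  rw [Submodule.eq_bot_iff]
  intro v hv
  apply h0
  intro i
  rcases le_total i j with hij | hij
  · exact hZ hij hv.2
  · haveI : FiniteDimensional ℚ (S ⊓ Z j : Submodule ℚ V) := Submodule.finiteDimensional_of_le (inf_le_left (a := S))
    have h1 : (S ⊓ Z i : Submodule ℚ V) ≤ S ⊓ Z j := inf_le_inf_left S (hZ hij)
    have h2 := Submodule.eq_of_le_of_finrank_le h1 (hj i)
    rw [← h2] at hv
    exact hv.2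

theorem sep {n m : ℕ} (P : Matrix (Fin n) (Fin n) (Laur m)) (k : ℕ) (hk : 0 < k)
    (h : ∀ π : (Laur m)[X], Irreducible π → π ∣ P.charpoly → VanAt k π)
    {I : Type} [Fintype I] (w : I → Fin n → Laur m) (hw : LinearIndependent ℚ w) :
    ∃ (Y : ℕ → Submodule (Laur m) (Fin n → Laur m)) (j : ℕ), Antitone Y ∧ Y 0 = ⊤ ∧
      (∀ i, FiniteDimensional ℚ ((Fin n → Laur m) ⧸ Y i)) ∧
      (∀ i v, v ∈ Y i → Matrix.vecMul v P ∈ Y i) ∧
      (∀ i v (z : Zm m), v ∈ Y i → (mono z) ^ k • v - v ∈ Y (i + 1)) ∧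
      (∀ i v, v ∈ Y i → Matrix.vecMul v (P ^ k) - v ∈ Y (i + 1)) ∧
      LinearIndependent ℚ (fun a => (Submodule.Quotient.mk (w a) : (Fin n → Laur m) ⧸ Y j)) := by
  classical
  haveI : FiniteDimensional ℚ (Submodule.span ℚ (Set.range w)) := FiniteDimensional.span_of_finite ℚ (Set.finite_range w)
  have hanti : Antitone (sepY P k) := by
    intro i j hij v hv
    rw [mem_sepY] at hv ⊢
    exact Submodule.smul_mono_left (Ideal.pow_le_pow_right hij) hv
  obtain ⟨j, hj⟩ := sep_stable (Submodule.span ℚ (Set.range w)) (fun i => (sepY P k i).restrictScalars ℚ) (fun i j hij => hanti hij)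
    (fun v hv => sepY_inf P k h v hv)
  refine ⟨sepY P k, j, hanti, ?_, fun i => sepY_fin P k i hk, ?_, ?_, ?_, ?_⟩
  · rw [eq_top_iff]
    intro v _
    have h1 := sep_pow_zero (Ik m k) (M := sepM P)
    rw [mem_sepY, h1]
    trivial
  · intro i v hv
    have h1 : sepof P (Matrix.vecMul v P) = (X : (Laur m)[X]) • sepof P v := by
      rw [sepof_smul, aeval_X]
    rw [mem_sepY, h1]
    exact Submodule.smul_mem _ _ hv
  · intro i v z hv
    have h1 : ((C (mono z) : (Laur m)[X]) ^ k - 1) ∈ Ik m k :=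
      Submodule.mem_sup_left (Ideal.subset_span ⟨z, rfl⟩)
    have h2 := sepY_succ P k i hv h1
    rw [map_sub, map_pow, aeval_C, map_one, Matrix.vecMul_sub, Matrix.vecMul_one, ← map_pow, Algebra.algebraMap_eq_smul_one,
      Matrix.vecMul_smul, Matrix.vecMul_one] at h2
    exact h2
  · intro i v hv
    have h1 : ((X : (Laur m)[X]) ^ k - 1) ∈ Ik m k :=
      Submodule.mem_sup_right (Ideal.subset_span rfl)
    have h2 := sepY_succ P k i hv h1
    rw [map_sub, map_pow, aeval_X, map_one, Matrix.vecMul_sub, Matrix.vecMul_one] at h2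
    exact h2
  · have h1 := hw.map (f := ((sepY P k j).mkQ.restrictScalars ℚ)) (by
      rw [LinearMap.ker_restrictScalars, Submodule.ker_mkQ]
      exact hj)
    exact h1

end Pool.Agent.H8.AP
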