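import Pool.Agent.H8.AP.Defs

/-! # Fox derivatives of a basis of the kernel are linearly independent

`fox_of`, `fox_mul`, `fox_one`, `fox_inv`: from the definition (`foxAct θ f v = fox θ f + mono (θ f) • v` by induction on `f`).
`fox_unique`: two derivations with the same values on the generators agree (`FreeGroup.induction_on`).
`fox_li` (explicit Shapiro lemma). Let `χ : ker θ →* Multiplicative ℚ` with `χ (y_i) = c_i`. Choose for every `z` in the range of `θ` an element `r z` with
`θ (r z) = z`, `r 1 = 1`; put `χ' f z = toAdd (χ (r z * f * (r (z * θ f))⁻¹)) : ℚ` for `z` in the range, `0` otherwise. Then `χ' (f g) z = χ' f z + χ' g (z * θ f)`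
(the middle terms cancel, everything lies in the abelian target). Define the `ℚ`-linear functional `ℓ : (Fin n → Laur m) → ℚ`,
`ℓ v = ∑ j, ∑_z (v j)_z * χ' (x_j) z` (e.g. `Finsupp.lsum`/`Finsupp.linearCombination` on each coordinate). Then `ℓ (mono z • fox θ f) = χ' f z` for `z` in the range of `θ`:
induction on `f` (generator: clear; product: `mono z • fox θ (f g) = mono z • fox θ f + mono (z * θ f) • fox θ g`; inverse from the product rule and
`f f⁻¹ = 1`). At `z = 1` and `f = y_i`: `ℓ (fox θ (y_i)) = toAdd (χ y_i) = c_i`.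
Linear independence: `linearIndependent_iff'`: if `∑ a_i fox θ (y_i) = 0`, apply `ℓ` for `c = Pi.single i 1`: `a_i = 0`. -/

set_option autoImplicit false

namespace Pool.Agent.H8.AP

private theorem shap_mono_mul {m : ℕ} (z w : Zm m) : mono (z * w) = mono z * mono w :=
  map_mul _ _ _

private theorem shap_mono_one {m : ℕ} : mono (1 : Zm m) = 1 := map_one _

private theorem shap_act_gen {n m : ℕ} (θ : Fr n →* Zm m) (i : Fin n) (v : Fin n → Laur m) :
    foxAct θ (FreeGroup.of i) v = Pi.single i 1 + mono (θ (FreeGroup.of i)) • v := by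
  rw [foxAct, FreeGroup.lift_apply_of]
  rfl

private theorem shap_act {n m : ℕ} (θ : Fr n →* Zm m) (f : Fr n) :
    ∀ v, foxAct θ f v = fox θ f + mono (θ f) • v := by
  induction f using FreeGroup.induction_on with
  | C1 =>
    intro v
    rw [fox, map_one, map_one, Equiv.Perm.one_apply, Equiv.Perm.one_apply, shap_mono_one, one_smul,
      zero_add]
  | of i =>
    intro v
    rw [fox, shap_act_gen, shap_act_gen, smul_zero, add_zero]
  | inv_of i _ =>
    intro v
    have key : ∀ w : Fin n → Laur m, foxAct θ (FreeGroup.of i)⁻¹ w =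
        mono (θ (FreeGroup.of i))⁻¹ • (w - Pi.single i 1) := by
      intro w
      rw [map_inv, Equiv.Perm.inv_eq_iff_eq, shap_act_gen, smul_smul, ← shap_mono_mul, mul_inv_cancel,
        shap_mono_one, one_smul, add_sub_cancel]
    rw [fox, key, key, map_inv, zero_sub, ← smul_add, sub_eq_neg_add]
  | mul f g hf hg =>
    intro v
    rw [fox, map_mul, Equiv.Perm.mul_apply, Equiv.Perm.mul_apply, hg, hg, hf, hf (_ + _), smul_zero,
      add_zero, map_mul, shap_mono_mul, smul_add, smul_smul, add_assoc]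

theorem fox_of {n m : ℕ} (θ : Fr n →* Zm m) (i : Fin n) :
    fox θ (FreeGroup.of i) = Pi.single i 1 := by
  rw [fox, shap_act_gen, smul_zero, add_zero]

theorem fox_mul {n m : ℕ} (θ : Fr n →* Zm m) (f g : Fr n) :
    fox θ (f * g) = fox θ f + mono (θ f) • fox θ g := by
  rw [← shap_act, fox, fox, map_mul, Equiv.Perm.mul_apply]

private theorem shap_one {n m : ℕ} (θ : Fr n →* Zm m) : fox θ 1 = 0 := by
  rw [fox, map_one, Equiv.Perm.one_apply]

private theorem shap_inv {n m : ℕ} (θ : Fr n →* Zm m) (f : Fr n) :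
    fox θ f⁻¹ = - (mono (θ f⁻¹) • fox θ f) := by
  have h := fox_mul θ f⁻¹ f
  rw [inv_mul_cancel, shap_one] at h
  exact eq_neg_of_add_eq_zero_left h.symm

theorem fox_phi {n m : ℕ} (θ : Fr n →* Zm m) (φ : MulAut (Fr n)) (hθ : ∀ f, θ (φ f) = θ f)
    (f : Fr n) : fox θ (φ f) = Matrix.vecMul (fox θ f) (foxMat θ φ) := by
  induction f using FreeGroup.induction_on with
  | C1 => rw [map_one, shap_one, Matrix.zero_vecMul]
  | of i =>
    rw [fox_of, Matrix.single_one_vecMul]
    rfl
  | inv_of i h =>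
    rw [map_inv, shap_inv, shap_inv, h, Matrix.neg_vecMul, Matrix.smul_vecMul, map_inv, hθ, map_inv]
  | mul f g hf hg =>
    rw [map_mul, fox_mul, fox_mul, hf, hg, Matrix.add_vecMul, Matrix.smul_vecMul, hθ]

/-- the functional of the Shapiro lemma -/
private theorem shap_fun {n m : ℕ} (θ : Fr n →* Zm m) (χ : θ.ker →* Multiplicative ℚ) :
    ∃ L : (Fin n → Laur m) →ₗ[ℚ] ℚ, ∀ (f : Fr n) (hf : θ f = 1),
      L (fox θ f) = Multiplicative.toAdd (χ ⟨f, θ.mem_ker.2 hf⟩) := by
  classical
  -- representatives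
  obtain ⟨r, hr, hr1⟩ : ∃ r : Zm m → Fr n, (∀ f, θ (r (θ f)) = θ f) ∧ r 1 = 1 := by
    refine ⟨fun z => if z = 1 then 1 else if h : ∃ f, θ f = z then h.choose else 1, fun f => ?_, by simp⟩
    by_cases h1 : θ f = 1
    · simp [h1]
    · have h2 : ∃ g, θ g = θ f := ⟨f, rfl⟩
      simp only [h1, if_false, h2, dif_pos]
      exact h2.choose_spec
  have hker : ∀ f g : Fr n, r (θ g) * f * (r (θ g * θ f))⁻¹ ∈ θ.ker := by
    intro f g
    rw [θ.mem_ker, map_mul, map_mul, map_inv, hr, ← map_mul, hr, mul_inv_cancel]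
  let χ' : Fr n → Zm m → ℚ := fun f z =>
    if h : r z * f * (r (z * θ f))⁻¹ ∈ θ.ker then Multiplicative.toAdd (χ ⟨_, h⟩) else 0
  have hχ' : ∀ f g, χ' f (θ g) = Multiplicative.toAdd (χ ⟨_, hker f g⟩) := by
    intro f g
    simp only [χ', dif_pos (hker f g)]
  have hone : ∀ g, χ' 1 (θ g) = 0 := by
    intro g
    rw [hχ']
    have : (⟨_, hker 1 g⟩ : θ.ker) = 1 := by
      apply Subtype.ext
      show r (θ g) * 1 * (r (θ g * θ 1))⁻¹ = 1
      rw [map_one, mul_one, mul_one, mul_inv_cancel]
    rw [this, map_one, toAdd_one]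
  have hmul : ∀ f f' g, χ' (f * f') (θ g) = χ' f (θ g) + χ' f' (θ (g * f)) := by
    intro f f' g
    rw [hχ', hχ', hχ', ← toAdd_mul]
    refine congrArg Multiplicative.toAdd ?_
    refine Eq.trans (congrArg χ ?_) (map_mul χ _ _)
    apply Subtype.ext
    show r (θ g) * (f * f') * (r (θ g * θ (f * f')))⁻¹ =
      (r (θ g) * f * (r (θ g * θ f))⁻¹) * (r (θ (g * f)) * f' * (r (θ (g * f) * θ f'))⁻¹)
    rw [map_mul, map_mul, ← mul_assoc (θ g)]
    group
  let L : (Fin n → Laur m) →ₗ[ℚ] ℚ := ∑ j : Fin n,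
    (Finsupp.linearCombination ℚ (χ' (FreeGroup.of j))).comp
      ((MonoidAlgebra.coeffLinearEquiv ℚ).toLinearMap.comp (LinearMap.proj j))
  have hLgen : ∀ (i : Fin n) (z : Zm m), L (mono z • Pi.single i 1) = χ' (FreeGroup.of i) z := by
    intro i z
    simp only [L, LinearMap.sum_apply, LinearMap.comp_apply, LinearMap.proj_apply]
    rw [Finset.sum_eq_single i]
    · rw [Pi.smul_apply, Pi.single_eq_same, smul_eq_mul, mul_one]
      show Finsupp.linearCombination ℚ (χ' (FreeGroup.of i)) (MonoidAlgebra.coeff (mono z)) = _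
      rw [mono, MonoidAlgebra.of_apply, MonoidAlgebra.coeff_single, Finsupp.linearCombination_single, one_smul]
    · intro j _ hj
      rw [Pi.smul_apply, Pi.single_eq_of_ne hj, smul_zero, map_zero, map_zero]
    · intro h
      exact absurd (Finset.mem_univ i) h
  have hL : ∀ f g, L (mono (θ g) • fox θ f) = χ' f (θ g) := by
    intro f
    induction f using FreeGroup.induction_on with
    | C1 =>
      intro g
      rw [shap_one, smul_zero, map_zero, hone]
    | of i =>
      intro g
      rw [fox_of, hLgen]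
    | inv_of i h =>
      intro g
      have h1 := hmul (FreeGroup.of i)⁻¹ (FreeGroup.of i) g
      rw [inv_mul_cancel, hone, ← h] at h1
      have h2 := congrArg (fun v => L (mono (θ g) • v)) (fox_mul θ (FreeGroup.of i)⁻¹ (FreeGroup.of i))
      simp only [inv_mul_cancel, shap_one, smul_zero, map_zero, smul_add, map_add, smul_smul, ← map_mul] at h2
      linarith
    | mul f f' hf hf' =>
      intro g
      rw [fox_mul, smul_add, map_add, hf, smul_smul, ← shap_mono_mul, ← map_mul, hf', hmul]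
  refine ⟨L, fun f hf => ?_⟩
  have h0 : L (fox θ f) = L (mono (θ 1) • fox θ f) := by
    rw [map_one, shap_mono_one, one_smul]
  rw [h0, hL, hχ']
  refine congrArg Multiplicative.toAdd (congrArg χ (Subtype.ext ?_))
  show r (θ 1) * f * (r (θ 1 * θ f))⁻¹ = f
  rw [map_one, hf, mul_one, hr1, one_mul, inv_one, mul_one]

theorem fox_li {n m : ℕ} (θ : Fr n →* Zm m) {I : Type} [Fintype I] (y : I → Fr n)
    (hy : ∀ i, θ (y i) = 1)
    (h : ∀ c : I → ℚ, ∃ χ : θ.ker →* Multiplicative ℚ,
      ∀ i, χ ⟨y i, θ.mem_ker.2 (hy i)⟩ = Multiplicative.ofAdd (c i)) :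
    LinearIndependent ℚ (fun i => fox θ (y i)) := by
  classical
  rw [Fintype.linearIndependent_iff]
  intro a ha i
  obtain ⟨χ, hχ⟩ := h (Pi.single i 1)
  obtain ⟨L, hL⟩ := shap_fun θ χ
  have h1 := congrArg L ha
  rw [map_sum, map_zero] at h1
  simp only [map_smul, hL _ (hy _), hχ, toAdd_ofAdd, smul_eq_mul] at h1
  rw [Finset.sum_eq_single i] at h1
  · simpa using h1
  · intro j _ hj
    simp [hj]
  · simp

end Pool.Agent.H8.AP
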