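import Pool.Agent.H8.AP.Core
import Pool.Agent.H8.AP.Shap
import Pool.Agent.H8.AP.Schr
import Pool.Agent.H8.AP.Sep
import Pool.Agent.H8.AP.RepH

/-! # The criterion for the finite index subgroup `Hk` -/

set_option autoImplicit false

namespace Pool.Agent.H8.AP

open Polynomial Pool.H11.FC

section main

variable {n m : ℕ}

private theorem main_one : mono (1 : Zm m) = 1 := (MonoidAlgebra.of ℚ (Zm m)).map_one

private theorem main_mul (a b : Zm m) : mono (a * b) = mono a * mono b :=
  (MonoidAlgebra.of ℚ (Zm m)).map_mul a b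

private theorem main_pow (a : Zm m) (k : ℕ) : mono (a ^ k) = mono a ^ k :=
  (MonoidAlgebra.of ℚ (Zm m)).map_pow a k

/-- The action of the group on the quotient. -/
private noncomputable def mainRho (θ : Fr n →* Zm m) (Y : Submodule (Laur m) (Fin n → Laur m)) :
    Fr n →* Module.End ℚ ((Fin n → Laur m) ⧸ Y) where
  toFun := fun f =>
    (LinearMap.lsmul (Laur m) ((Fin n → Laur m) ⧸ Y) (mono (θ f))).restrictScalars ℚ
  map_one' := by
    refine LinearMap.ext fun v => ?_
    change (mono (θ 1)) • v = v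
    rw [map_one, main_one, one_smul]
  map_mul' := fun f g => by
    refine LinearMap.ext fun v => ?_
    change (mono (θ (f * g))) • v = (mono (θ f)) • (mono (θ g)) • v
    rw [map_mul, main_mul, mul_smul]

/-- The operator `T` on the quotient. -/
private noncomputable def mainT (P : Matrix (Fin n) (Fin n) (Laur m))
    (Y : Submodule (Laur m) (Fin n → Laur m)) (hP : ∀ v, v ∈ Y → Matrix.vecMul v P ∈ Y) :
    Module.End ℚ ((Fin n → Laur m) ⧸ Y) :=
  (Y.mapQ Y (Matrix.vecMulLinear P) (fun v hv => hP v hv)).restrictScalars ℚ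

private theorem mainT_mk (P : Matrix (Fin n) (Fin n) (Laur m))
    (Y : Submodule (Laur m) (Fin n → Laur m)) (hP : ∀ v, v ∈ Y → Matrix.vecMul v P ∈ Y)
    (v : Fin n → Laur m) : mainT P Y hP (Submodule.Quotient.mk v) =
      Submodule.Quotient.mk (Matrix.vecMul v P) := rfl

private theorem mainT_pow (P : Matrix (Fin n) (Fin n) (Laur m))
    (Y : Submodule (Laur m) (Fin n → Laur m)) (hP : ∀ v, v ∈ Y → Matrix.vecMul v P ∈ Y) (k : ℕ)
    (v : Fin n → Laur m) : (mainT P Y hP ^ k) (Submodule.Quotient.mk v) =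
      Submodule.Quotient.mk (Matrix.vecMul v (P ^ k)) := by
  induction k with
  | zero => rw [pow_zero, pow_zero, Matrix.vecMul_one, Module.End.one_apply]
  | succ k ih =>
    rw [pow_succ', Module.End.mul_apply, ih, mainT_mk, pow_succ, Matrix.vecMul_vecMul]

/-- The flag on the quotient. -/
private noncomputable def mainFl (Y : ℕ → Submodule (Laur m) (Fin n → Laur m)) (j i : ℕ) :
    Submodule ℚ ((Fin n → Laur m) ⧸ Y j) :=
  ((Y i).map (Y j).mkQ).restrictScalars ℚ

private theorem mainFl_mem {Y : ℕ → Submodule (Laur m) (Fin n → Laur m)} {j i : ℕ}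
    {v : Fin n → Laur m} (hv : v ∈ Y i) :
    (Submodule.Quotient.mk v : (Fin n → Laur m) ⧸ Y j) ∈ mainFl Y j i :=
  ⟨v, hv, rfl⟩

theorem rtfn_Hk (φ : MulAut (Fr n)) (θ : Fr n →* Zm m) (hθ : ∀ f, θ (φ f) = θ f) (k : ℕ)
    (hk : 0 < k)
    (h : ∀ π : (Laur m)[X], Irreducible π → π ∣ (foxMat θ φ).charpoly → VanAt k π) :
    RTFN (Hk φ θ hθ k) := by
  intro g hg
  by_cases hg1 : g.1.right ≠ 1 ∨ θ g.1.left ≠ 1
  · exact det_proj φ θ hθ k g hg1
  push Not at hg1
  obtain ⟨hr, hl⟩ := hg1
  have hf1 : g.1.left ≠ 1 := fun h1 => hg (Subtype.ext (SemidirectProduct.ext h1 hr))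
  obtain ⟨I, iI, y, hy, γ, hχ, hγ, hγf⟩ := exists_schreier θ g.1.left hl hf1
  have hli := fox_li θ y hy hχ
  obtain ⟨Y, j, ha, h0, hfd, hP, hz, hPk, hind⟩ := sep (foxMat θ φ) k hk h _ hli
  have := hfd j
  set P := foxMat θ φ with hPdef
  -- the flag
  have hraise : ∀ i v, v ∈ mainFl Y j i → (mainT P (Y j) (hP j) ^ k) v - v ∈ mainFl Y j (i + 1) := by
    rintro i _ ⟨v, hv, rfl⟩
    rw [Submodule.mkQ_apply, mainT_pow, ← Submodule.Quotient.mk_sub]
    exact mainFl_mem (hPk i v hv)
  have hbot : mainFl Y j j = ⊥ := by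
    rw [eq_bot_iff]
    rintro _ ⟨v, hv, rfl⟩
    rw [Submodule.mem_bot, Submodule.mkQ_apply]
    exact (Submodule.Quotient.mk_eq_zero _).2 hv
  have htop : mainFl Y j 0 = ⊤ := by
    rw [eq_top_iff]
    intro v _
    obtain ⟨w, rfl⟩ := Submodule.Quotient.mk_surjective _ v
    exact mainFl_mem (by rw [h0]; exact Submodule.mem_top)
  have hinj : Function.Injective (mainT P (Y j) (hP j)) := by
    rw [← LinearMap.ker_eq_bot, LinearMap.ker_eq_bot']
    intro v hv
    have hTk : (mainT P (Y j) (hP j) ^ k) v = 0 := by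
      obtain ⟨k', rfl⟩ : ∃ k', k = k' + 1 := ⟨k - 1, by omega⟩
      rw [pow_succ, Module.End.mul_apply, hv, map_zero]
    have hall : ∀ i, v ∈ mainFl Y j i := by
      intro i
      induction i with
      | zero => rw [htop]; exact Submodule.mem_top
      | succ i ih =>
        have h1 := hraise i v ih
        rw [hTk, zero_sub] at h1
        exact (Submodule.neg_mem_iff _).1 h1
    have h1 := hall j
    rw [hbot] at h1
    exact (Submodule.mem_bot ℚ).1 h1
  let B : GMod φ ((Fin n → Laur m) ⧸ Y j) :=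
    { ρ := mainRho θ (Y j)
      T := mainT P (Y j) (hP j)
      inj := hinj
      comm := fun f v => by
        obtain ⟨w, rfl⟩ := Submodule.Quotient.mk_surjective _ v
        change mainT P (Y j) (hP j) (mono (θ f) • Submodule.Quotient.mk w) =
          mono (θ (φ f)) • mainT P (Y j) (hP j) (Submodule.Quotient.mk w)
        rw [← Submodule.Quotient.mk_smul, mainT_mk, mainT_mk, ← Submodule.Quotient.mk_smul, hθ,
          Matrix.smul_vecMul] }
  have hB : Uni B (Kk θ k) k (mainFl Y j) j := by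
    refine ⟨?_, htop, hbot, ?_, ?_, ?_, hraise⟩
    · intro a b hab
      rintro _ ⟨v, hv, rfl⟩
      exact mainFl_mem (ha hab hv)
    · rintro f i _ ⟨v, hv, rfl⟩
      change mono (θ f) • (Submodule.Quotient.mk v : (Fin n → Laur m) ⧸ Y j) ∈ _
      rw [← Submodule.Quotient.mk_smul]
      exact mainFl_mem ((Y i).smul_mem _ hv)
    · rintro i _ ⟨v, hv, rfl⟩
      exact mainFl_mem (hP i v hv)
    · rintro f hf i _ ⟨v, hv, rfl⟩
      obtain ⟨z, hzf⟩ := hf
      have hzf' : z ^ k = θ f := hzf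
      change mono (θ f) • (Submodule.Quotient.mk v : (Fin n → Laur m) ⧸ Y j) -
        Submodule.Quotient.mk v ∈ _
      rw [← Submodule.Quotient.mk_smul, ← Submodule.Quotient.mk_sub, ← hzf', main_pow]
      exact mainFl_mem (hz i v z hv)
  obtain ⟨U, i1, i2, i3, A, Fl, l, hA, hAf⟩ := core (Kk θ k) k y B (mainFl Y j) j hB
    (fun f => Submodule.Quotient.mk (fox θ f))
    (fun f g => by
      change (Submodule.Quotient.mk (fox θ (f * g)) : (Fin n → Laur m) ⧸ Y j) =
        Submodule.Quotient.mk (fox θ f) + mono (θ f) • Submodule.Quotient.mk (fox θ g)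
      rw [fox_mul, Submodule.Quotient.mk_add, Submodule.Quotient.mk_smul])
    (fun f => by
      change (Submodule.Quotient.mk (fox θ (φ f)) : (Fin n → Laur m) ⧸ Y j) =
        Submodule.Quotient.mk (Matrix.vecMul (fox θ f) P)
      rw [fox_phi θ φ hθ])
    (fun i => by
      refine LinearMap.ext fun v => ?_
      change mono (θ (y i)) • v = v
      rw [hy, main_one, one_smul])
    hind γ hγ
  rw [hγf] at hAf
  exact det_mod φ θ hθ k A Fl l hA g.1.left hAf g
    (SemidirectProduct.ext (by simp) (by simpa using hr))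

end main

end Pool.Agent.H8.AP
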