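import Pool.Agent.H8.AP.Defs

/-! # Laurent polynomials over the rationals form a noetherian factorial domain

`laur_noeth`: `Laur m` is an algebra of finite type over `ℚ` (`MonoidAlgebra.finiteType_of_fg` or similar, the monoid `Zm m` is finitely generated), so noetherian
(`Algebra.FiniteType.isNoetherianRing`). `laur_dom`: instance for unique products / torsion-free groups (`MonoidAlgebra.instNoZeroDivisors...`, `UniqueProds`), or via localization.
`laur_ufd`: `Laur m` is the localization of the polynomial ring `MvPolynomial (Fin m) ℚ` (a UFD) at the monomials; a localization of a UFD is a UFD: every nonzero element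
of `S⁻¹A` is `a / s`, `a` is a product of primes of `A`, and every prime of `A` becomes prime or a unit in `S⁻¹A` (`IsLocalization.isPrime_iff_isPrime_disjoint`
for the principal ideal, or directly); use `UniqueFactorizationMonoid.of_exists_prime_factors`. Alternatively by induction on `m` with `LaurentPolynomial`
(if Mathlib has UFD for it), transported by ring isomorphisms `MonoidAlgebra ℚ (G × H) ≃ MonoidAlgebra (MonoidAlgebra ℚ G) H`. Any proof is fine. -/

set_option autoImplicit false

namespace Pool.Agent.H8.AP

theorem laur_noeth (m : ℕ) : IsNoetherianRing (Laur m) := by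
  have h1 : AddGroup.FG (Fin m → ℤ) := by
    rw [← Module.Finite.iff_addGroup_fg]
    infer_instance
  have h2 : AddMonoid.FG (Fin m → ℤ) := AddGroup.fg_iff_addMonoid_fg.1 h1
  have h3 : Monoid.FG (Zm m) := AddMonoid.fg_iff_mul_fg.1 h2
  have h4 : Algebra.FiniteType ℚ (Laur m) := inferInstance
  exact Algebra.FiniteType.isNoetherianRing ℚ (Laur m)

theorem laur_dom (m : ℕ) : IsDomain (Laur m) := inferInstance

private def ufd_split (m : ℕ) : Zm (m + 1) ≃* Zm m × Multiplicative ℤ where
  toFun z := (Multiplicative.ofAdd fun i => Multiplicative.toAdd z i.castSucc,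
    Multiplicative.ofAdd (Multiplicative.toAdd z (Fin.last m)))
  invFun p := Multiplicative.ofAdd (Fin.snoc (Multiplicative.toAdd p.1) (Multiplicative.toAdd p.2) : Fin (m + 1) → ℤ)
  left_inv z := by
    apply Multiplicative.toAdd.injective
    funext i
    refine Fin.lastCases ?_ (fun i => ?_) i
    · simp
    · simp
  right_inv p := by
    refine Prod.ext ?_ ?_
    · apply Multiplicative.toAdd.injective
      funext i
      simp
    · simp
  map_mul' z w := rfl

set_option linter.overlappingInstances false in
private theorem ufd_one (A : Type) [CommRing A] [IsDomain A] [UniqueFactorizationMonoid A] :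
    UniqueFactorizationMonoid (MonoidAlgebra A (Multiplicative ℤ)) := by
  have h1 : UniqueFactorizationMonoid (LaurentPolynomial A) :=
    UniqueFactorizationMonoid.of_isLocalization (Submonoid.powers (Polynomial.X : Polynomial A)) (LaurentPolynomial A)
  exact (AddMonoidAlgebra.toMultiplicative A ℤ).toMulEquiv.uniqueFactorizationMonoid h1

set_option linter.overlappingInstances false in
private theorem ufd_aux (m : ℕ) : ∀ (A : Type) [CommRing A] [IsDomain A] [UniqueFactorizationMonoid A],
    UniqueFactorizationMonoid (MonoidAlgebra A (Zm m)) := by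
  induction m with
  | zero =>
    intro A _ _ _
    exact (MonoidAlgebra.uniqueRingEquiv (R := A) (Zm 0)).symm.toMulEquiv.uniqueFactorizationMonoid inferInstance
  | succ m ih =>
    intro A _ _ _
    have h1 : IsDomain (MonoidAlgebra A (Multiplicative ℤ)) := inferInstance
    have h2 := ufd_one A
    have h3 := ih (MonoidAlgebra A (Multiplicative ℤ))
    have h4 : MonoidAlgebra A (Zm (m + 1)) ≃+* MonoidAlgebra (MonoidAlgebra A (Multiplicative ℤ)) (Zm m) :=
      (MonoidAlgebra.mapDomainRingEquiv A (ufd_split m)).trans MonoidAlgebra.curryRingEquiv
    exact h4.symm.toMulEquiv.uniqueFactorizationMonoid h3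

theorem laur_ufd (m : ℕ) : haveI := laur_dom m; UniqueFactorizationMonoid (Laur m) := ufd_aux m ℚ

end Pool.Agent.H8.AP
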